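import Pool.Agent.Y124.GE.Bd

/-!
# Local data at a fibre of potentially good reduction, with the relation to the smooth model
-/

set_option autoImplicit false

namespace Pool.Agent.T44.MS

open Pool.Agent.Y124.GE
open PowerSeries Finset Pool.Agent.Y113 Pool.Agent.Y113.HGG Pool.Agent.Y655.HG

/-- **Descent** with the relation to the solutions of the smooth model. -/
theorem ld_of' {a b A B : Polynomial ℚ} (w : ℕ) (hA : xp (a : ℚ⟦X⟧) = X ^ (4 * w) * (A : ℚ⟦X⟧))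
    (hB : xp (b : ℚ⟦X⟧) = X ^ (6 * w) * (B : ℚ⟦X⟧)) {S : Fin 2 → Fin 2 → ℚ⟦X⟧} (hS : FD A B 0 S)
    (m : Fin 2 → ℕ) (hm : ∀ i, w ≤ m i) (g : Fin 2 → ZMod 12) (hg0 : g 0 = w) (hg1 : g 1 = -w)
    (hmg : ∀ i, (m i : ZMod 12) = g i) (hSg : ∀ i j, Gr (g j - g i) (S i j)) (hSD : ∀ i j, SDc (S i j)) :
    ∃ L : LD a b, (∀ i j, L.N i j = 0) ∧ ∀ i j, xp (L.Y i j) = X ^ ex w m i j * S i j := by
  have hgr : ∀ i j, Gr 0 (X ^ ex w m i j * S i j) := by
    intro i j
    have h1 := (Gr.X_pow (ex w m i j)).mul (hSg i j)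
    have h2 : ((ex w m i j : ℕ) : ZMod 12) + (g j - g i) = 0 := by
      fin_cases j
      · show ((m i - w : ℕ) : ZMod 12) + (g 0 - g i) = 0
        rw [Nat.cast_sub (hm i), hg0, hmg]
        ring
      · show ((m i + w : ℕ) : ZMod 12) + (g 1 - g i) = 0
        rw [Nat.cast_add, hg1, hmg]
        ring
    rwa [h2] at h1
  set Z : Fin 2 → Fin 2 → ℚ⟦X⟧ := fun i j => ds (X ^ ex w m i j * S i j) with hZ
  have hxZ : ∀ i j, xp (Z i j) = X ^ ex w m i j * S i j := fun i j => xp_ds (hgr i j)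
  have hC12 : (PowerSeries.C 12 : ℚ⟦X⟧) ≠ 0 := by
    intro h
    have := congrArg constantCoeff h
    simp at this
  have hdetZ : Z 0 0 * Z 1 1 - Z 0 1 * Z 1 0 ≠ 0 := by
    intro h0
    have h1 := congrArg xp h0
    rw [map_zero, map_sub, map_mul, map_mul, hxZ, hxZ, hxZ, hxZ] at h1
    have e1 : ex w m 0 0 + ex w m 1 1 = m 0 + m 1 := by
      show m 0 - w + (m 1 + w) = _
      have := hm 0
      omega
    have e2 : ex w m 0 1 + ex w m 1 0 = m 0 + m 1 := by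
      show m 0 + w + (m 1 - w) = _
      have := hm 1
      omega
    have h2 : X ^ (m 0 + m 1) * (S 0 0 * S 1 1 - S 0 1 * S 1 0) = 0 := by
      have f1 : (X : ℚ⟦X⟧) ^ ex w m 0 0 * X ^ ex w m 1 1 = X ^ (m 0 + m 1) := by rw [← pow_add, e1]
      have f2 : (X : ℚ⟦X⟧) ^ ex w m 0 1 * X ^ ex w m 1 0 = X ^ (m 0 + m 1) := by rw [← pow_add, e2]
      linear_combination h1 - (S 0 0 * S 1 1) * f1 + (S 0 1 * S 1 0) * f2
    have h3 := (mul_eq_zero.1 h2).resolve_left (pow_ne_zero _ X_ne_zero)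
    have h4 := congrArg constantCoeff h3
    rw [map_sub, map_mul, map_mul, hS.c0, hS.c0, hS.c0, hS.c0, map_zero] at h4
    simp at h4
  have hodeZ : ∀ j, (De a b : ℚ⟦X⟧) • Dc (cN (fun i => (m i : ℚ) / 12) ((1 / 12 : ℚ) • (0 : M2))) (fun i => Z i j) =
      ∑ k, ((X : ℚ⟦X⟧) * (AE a b k j : ℚ⟦X⟧)) • fun i => Z i k := by
    intro j
    funext i
    apply xp_inj
    apply mul_left_cancel₀ hC12
    rw [Pi.smul_apply, smul_eq_mul, Dc_apply, Finset.sum_apply]
    simp only [Pi.smul_apply, smul_eq_mul]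
    -- the right side
    have hr : PowerSeries.C 12 * xp (∑ k, X * (AE a b k j : ℚ⟦X⟧) * Z i k) =
        ∑ k, (PowerSeries.C 12 * (X ^ 12 * xp (AE a b k j : ℚ⟦X⟧)) * X ^ ex w m i k) * S i k := by
      rw [map_sum, Finset.mul_sum]
      refine Finset.sum_congr rfl fun k _ => ?_
      rw [map_mul, map_mul, hxZ, xp_X]
      ring
    rw [hr]
    simp only [gauge hA hB i (hm i)]
    -- the left side
    have hl1 : PowerSeries.C 12 * xp (X * d⁄dX ℚ (Z i j)) = X ^ ex w m i j * ((ex w m i j : ℚ⟦X⟧) * S i j + X * d⁄dX ℚ (S i j)) := by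
      rw [← der_xp, hxZ, Derivation.leibniz, Derivation.leibniz_pow, derivative_X]
      simp only [smul_eq_mul, nsmul_eq_mul, mul_one]
      generalize ex w m i j = k
      rcases k with _ | k
      · simp
      · rw [Nat.add_sub_cancel]
        push_cast
        ring
    have hl2 : PowerSeries.C 12 * xp (∑ k, PowerSeries.C (cN (fun i => (m i : ℚ) / 12) ((1 / 12 : ℚ) • (0 : M2)) i k) * Z k j) =
        X ^ ex w m i j * (PowerSeries.C (m i : ℚ) * S i j) := by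
      have h3 : ∀ k, PowerSeries.C 12 * (PowerSeries.C (cN (fun i => (m i : ℚ) / 12) ((1 / 12 : ℚ) • (0 : M2)) i k) *
          (X ^ ex w m k j * S k j)) = X ^ ex w m i j * (if i = k then PowerSeries.C (m i : ℚ) * S k j else 0) := by
        intro k
        have h4 : PowerSeries.C 12 * PowerSeries.C (cN (fun i => (m i : ℚ) / 12) ((1 / 12 : ℚ) • (0 : M2)) i k) =
            (if i = k then PowerSeries.C (m i : ℚ) else 0) := by
          rw [← map_mul, cN, Matrix.sub_apply, Matrix.diagonal_apply, Matrix.smul_apply, smul_eq_mul, Matrix.zero_apply]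
          split_ifs
          · congr 1
            ring
          · have h7 : (12 * (0 - 1 / 12 * 0) : ℚ) = 0 := by ring
            rw [h7, map_zero]
        by_cases hik : i = k
        · subst hik
          rw [if_pos rfl] at h4 ⊢
          linear_combination (X ^ ex w m i j * S i j) * h4
        · rw [if_neg hik] at h4 ⊢
          linear_combination (X ^ ex w m k j * S k j) * h4
      rw [map_sum, Finset.mul_sum]
      simp only [map_mul, xp_C, hxZ]
      rw [Finset.sum_congr rfl fun k _ => h3 k, ← Finset.mul_sum]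
      congr 1
      simp
    have hex : ((ex w m i j : ℕ) : ℚ⟦X⟧) = PowerSeries.C (m i : ℚ) - PowerSeries.C (gq w j) := by
      rw [← map_sub, ← map_natCast (PowerSeries.C (R := ℚ))]
      congr 1
      fin_cases j
      · show ((m i - w : ℕ) : ℚ) = (m i : ℚ) - (w : ℚ)
        rw [Nat.cast_sub (hm i)]
      · show ((m i + w : ℕ) : ℚ) = (m i : ℚ) - (-(w : ℚ))
        push_cast
        ring
    have hode := hS.ode i j
    simp only [Matrix.zero_apply, map_zero, zero_mul, Finset.sum_const_zero, add_zero] at hode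
    have hL : PowerSeries.C 12 * xp ((De a b : ℚ⟦X⟧) * (X * d⁄dX ℚ (Z i j) -
        ∑ k, PowerSeries.C (cN (fun i => (m i : ℚ) / 12) ((1 / 12 : ℚ) • (0 : M2)) i k) * Z k j)) =
        X ^ (12 * w) * X ^ ex w m i j * ((De A B : ℚ⟦X⟧) * (X * d⁄dX ℚ (S i j)) -
          PowerSeries.C (gq w j) * ((De A B : ℚ⟦X⟧) * S i j)) := by
      rw [map_mul, map_sub, xp_De hA hB]
      linear_combination (X ^ (12 * w) * (De A B : ℚ⟦X⟧)) * hl1 - (X ^ (12 * w) * (De A B : ℚ⟦X⟧)) * hl2 +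
        (X ^ (12 * w) * (De A B : ℚ⟦X⟧) * X ^ ex w m i j * S i j) * hex
    rw [hL, hode]
    have hs : ∑ k, X ^ (12 * w) * X ^ ex w m i j * (X * (AE A B k j : ℚ⟦X⟧) - PowerSeries.C (gq w j) *
        ((if k = j then 1 else 0) * (De A B : ℚ⟦X⟧))) * S i k = X ^ (12 * w) * X ^ ex w m i j * (∑ k, X * (AE A B k j : ℚ⟦X⟧) * S i k -
          PowerSeries.C (gq w j) * ((De A B : ℚ⟦X⟧) * S i j)) := by
      rw [mul_sub, Finset.mul_sum]
      have h6 : ∀ k, X ^ (12 * w) * X ^ ex w m i j * (X * (AE A B k j : ℚ⟦X⟧) - PowerSeries.C (gq w j) *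
        ((if k = j then 1 else 0) * (De A B : ℚ⟦X⟧))) * S i k = X ^ (12 * w) * X ^ ex w m i j * (X * (AE A B k j : ℚ⟦X⟧) * S i k) -
          (if k = j then X ^ (12 * w) * X ^ ex w m i j * (PowerSeries.C (gq w j) * ((De A B : ℚ⟦X⟧) * S i j)) else 0) := by
        intro k
        split_ifs with hkj
        · rw [hkj]
          ring
        · ring
      simp only [h6]
      rw [Finset.sum_sub_distrib]
      congr 1
      simp
    rw [hs]
  exact ⟨⟨m, 0, Z, by simp, fun i k h => absurd rfl h, fun i j => SDc_ds ((SDc_Xp _).mul (hSD i j)), hdetZ, hodeZ⟩,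
    fun _ _ => rfl, hxZ⟩

/-- **Local data at a fibre of potentially good reduction** -/
theorem ld_good {a b A B : Polynomial ℚ} (w : ℕ) (hA : xp (a : ℚ⟦X⟧) = X ^ (4 * w) * (A : ℚ⟦X⟧))
    (hB : xp (b : ℚ⟦X⟧) = X ^ (6 * w) * (B : ℚ⟦X⟧)) (hA0 : A ≠ 0) (hD10 : (De A B).eval 0 ≠ 0) :
    ∃ (L : LD a b) (S : Fin 2 → Fin 2 → ℚ⟦X⟧), Sol A B S ∧ (∀ i j, L.N i j = 0) ∧
      ∀ i j, xp (L.Y i j) = X ^ ex w ![w, 11 * w] i j * S i j := by
  have hD1c : constantCoeff (De A B : ℚ⟦X⟧) = (De A B).eval 0 := by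
    rw [Polynomial.constantCoeff_coe, Polynomial.coeff_zero_eq_eval_zero]
  have hD1' : constantCoeff (De A B : ℚ⟦X⟧) ≠ 0 := by rwa [hD1c]
  have hDne : De A B ≠ 0 := by
    intro h0
    rw [h0] at hD10
    simp at hD10
  set Dp : ℚ⟦X⟧ := (De A B : ℚ⟦X⟧) with hDp
  have hinv : Dp * Dp⁻¹ = 1 := PowerSeries.mul_inv_cancel _ hD1'
  -- gradings
  set g : Fin 2 → ZMod 12 := ![(w : ZMod 12), -(w : ZMod 12)] with hg
  have h12 : ((12 : ℕ) : ZMod 12) = 0 := by rfl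
  have h12' : (12 : ZMod 12) = 0 := h12
  have gA : Gr (-4 * (w : ZMod 12)) (A : ℚ⟦X⟧) := by
    have h1 : Gr 0 (X ^ (4 * w) * (A : ℚ⟦X⟧)) := hA ▸ Gr.xp _
    have h2 := h1.of_X_pow_mul
    have h3 : (0 : ZMod 12) - ((4 * w : ℕ) : ZMod 12) = -4 * (w : ZMod 12) := by
      push_cast; ring
    rwa [h3] at h2
  have gD : Gr 0 Dp := by
    have h1 : Gr 0 (X ^ (12 * w) * (De A B : ℚ⟦X⟧)) := xp_De hA hB ▸ Gr.xp _
    have h2 := h1.of_X_pow_mul
    have h3 : (0 : ZMod 12) - ((12 * w : ℕ) : ZMod 12) = 0 := by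
      push_cast
      linear_combination (-(w : ZMod 12)) * h12'
    rwa [h3] at h2
  have gW : Gr (2 * (w : ZMod 12)) (X * (Wr A B : ℚ⟦X⟧)) := by
    have h1 : Gr 0 (X ^ (10 * w) * (X * (Wr A B : ℚ⟦X⟧))) := by
      rw [← xp_Wr hA hB]
      have h5 : Gr 0 (PowerSeries.C 12 * (X ^ 12 * xp (Wr a b : ℚ⟦X⟧))) := by
        have h6 := (Gr.C 12).mul ((Gr.X_pow 12).mul (Gr.xp (Wr a b : ℚ⟦X⟧)))
        rwa [h12, add_zero, add_zero] at h6
      exact h5
    have h2 := h1.of_X_pow_mul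
    have h4 : (0 : ZMod 12) - ((10 * w : ℕ) : ZMod 12) = 2 * (w : ZMod 12) := by
      push_cast
      linear_combination (-(w : ZMod 12)) * h12'
    rwa [h4] at h2
  have gDi : Gr 0 Dp⁻¹ := gD.inv hD1'
  -- the matrix
  set W1 : ℚ⟦X⟧ := X * (Wr A B : ℚ⟦X⟧) with hW1
  set B0 : ℚ⟦X⟧ := -(PowerSeries.C (1 / 12) * ((X * d⁄dX ℚ Dp) * Dp⁻¹)) with hB0
  set B1 : ℚ⟦X⟧ := -(PowerSeries.C (1 / 2) * ((A : ℚ⟦X⟧) * (W1 * Dp⁻¹))) with hB1
  set B2 : ℚ⟦X⟧ := -(PowerSeries.C (3 / 2) * (W1 * Dp⁻¹)) with hB2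
  set Bf : Fin 2 → Fin 2 → ℚ⟦X⟧ := ![![B0, B1], ![B2, -B0]] with hBf
  have g0 : Gr 0 B0 := by
    have h1 := ((Gr.C (1 / 12)).mul (by
      have h2 := gD.theta.mul gDi
      rwa [add_zero] at h2 : Gr 0 ((X * d⁄dX ℚ Dp) * Dp⁻¹))).neg
    rwa [add_zero] at h1
  have g1 : Gr (-2 * (w : ZMod 12)) B1 := by
    have h1 := ((Gr.C (1 / 2)).mul (gA.mul (gW.mul gDi))).neg
    have h2 : (0 : ZMod 12) + (-4 * (w : ZMod 12) + (2 * (w : ZMod 12) + 0)) = -2 * (w : ZMod 12) := by ring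
    rwa [h2] at h1
  have g2 : Gr (2 * (w : ZMod 12)) B2 := by
    have h1 := ((Gr.C (3 / 2)).mul (gW.mul gDi)).neg
    have h2 : (0 : ZMod 12) + (2 * (w : ZMod 12) + 0) = 2 * (w : ZMod 12) := by ring
    rwa [h2] at h1
  have gB : ∀ i j, Gr (g j - g i) (Bf i j) := by
    intro i j
    fin_cases i <;> fin_cases j
    · show Gr ((w : ZMod 12) - (w : ZMod 12)) B0
      rwa [sub_self]
    · show Gr (-(w : ZMod 12) - (w : ZMod 12)) B1
      have : -(w : ZMod 12) - (w : ZMod 12) = -2 * (w : ZMod 12) := by ring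
      rwa [this]
    · show Gr ((w : ZMod 12) - -(w : ZMod 12)) B2
      have : (w : ZMod 12) - -(w : ZMod 12) = 2 * (w : ZMod 12) := by ring
      rwa [this]
    · show Gr (-(w : ZMod 12) - -(w : ZMod 12)) (-B0)
      rw [sub_self]
      exact g0.neg
  have hDB : ∀ i j, (De A B : ℚ⟦X⟧) * Bf i j = X * (AE A B i j : ℚ⟦X⟧) := by
    obtain ⟨d00, d01, d10, d11⟩ := coe_AE A B
    intro i j
    have e0 : (De A B : ℚ⟦X⟧) * B0 = -(PowerSeries.C (1 / 12) * (X * d⁄dX ℚ (De A B : ℚ⟦X⟧))) := by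
      rw [hB0]
      linear_combination (-(PowerSeries.C (1 / 12)) * (X * d⁄dX ℚ Dp)) * hinv
    fin_cases i <;> fin_cases j
    · show (De A B : ℚ⟦X⟧) * B0 = X * (AE A B 0 0 : ℚ⟦X⟧)
      rw [e0, d00]
      ring
    · show (De A B : ℚ⟦X⟧) * B1 = X * (AE A B 0 1 : ℚ⟦X⟧)
      rw [d01, hB1, hW1]
      linear_combination (-(PowerSeries.C (1 / 2)) * (A : ℚ⟦X⟧) * (X * (Wr A B : ℚ⟦X⟧))) * hinv
    · show (De A B : ℚ⟦X⟧) * B2 = X * (AE A B 1 0 : ℚ⟦X⟧)
      rw [d10, hB2, hW1]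
      linear_combination (-(PowerSeries.C (3 / 2)) * (X * (Wr A B : ℚ⟦X⟧))) * hinv
    · show (De A B : ℚ⟦X⟧) * -B0 = X * (AE A B 1 1 : ℚ⟦X⟧)
      rw [mul_neg, e0, d11]
      ring
  -- the residue
  have hB00 : ∀ i j, constantCoeff (Bf i j) = (0 : M2) i j := by
    have c0 : constantCoeff B0 = 0 := by
      rw [hB0]
      simp
    have c1 : constantCoeff B1 = 0 := by
      rw [hB1, hW1]
      simp
    have c2 : constantCoeff B2 = 0 := by
      rw [hB2, hW1]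
      simp
    intro i j
    fin_cases i <;> fin_cases j
    · exact c0
    · exact c1
    · exact c2
    · show constantCoeff (-B0) = 0
      rw [map_neg, c0, neg_zero]
  have hNN : (0 : M2) * 0 = 0 := by simp
  obtain ⟨S, hS, hSg⟩ := frob A B 0 Bf hDB hB00 hNN g fun i j n hn => gB i j n hn
  have hSD := fun i j => sd_frob hA0 hDne hNN hS i j
  obtain ⟨L, hL1, hL2⟩ := ld_of' w hA hB hS ![w, 11 * w] (fun i => by
      fin_cases i
      · exact le_rfl
      · show w ≤ 11 * w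
        omega) g rfl rfl (fun i => by
      fin_cases i
      · rfl
      · show ((11 * w : ℕ) : ZMod 12) = -(w : ZMod 12)
        push_cast
        linear_combination (w : ZMod 12) * h12') hSg hSD
  refine ⟨L, S, ⟨hS.c0, fun i j => ?_⟩, hL1, hL2⟩
  have hode := hS.ode i j
  simp only [Matrix.zero_apply, map_zero, zero_mul, Finset.sum_const_zero, add_zero] at hode
  apply mul_left_cancel₀ (X_ne_zero (R := ℚ))
  rw [Finset.mul_sum]
  calc X * ((De A B : ℚ⟦X⟧) * d⁄dX ℚ (S i j)) = (De A B : ℚ⟦X⟧) * (X * d⁄dX ℚ (S i j)) := by ring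
    _ = _ := hode
    _ = _ := Finset.sum_congr rfl fun k _ => by ring

end Pool.Agent.T44.MS
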