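import Pool.Agent.T44.MS.Pt
import Pool.Agent.T44.MS.Ldg

/-!
# Auxiliary results
-/

set_option autoImplicit false

open Pool.Agent.Y124.GE Pool.Agent.Y120.GH PowerSeries Filter Topology Module
open Pool.Agent.Y124.TD Pool.Agent.Y124.TG Pool.Agent.Y113

namespace Pool.Agent.T44.MS

/-- a common radius -/
lemma rad {S : Fin 2 → Fin 2 → ℚ⟦X⟧} (h : ∀ i j, SDc (S i j)) : ∃ R : ℝ, 1 ≤ R ∧ ∀ i j, cx (S i j) ∈ Cw R := by
  have h1 : ∀ p : Fin 2 × Fin 2, ∃ M : ℝ, 1 ≤ M ∧ cx (S p.1 p.2) ∈ Cw M := by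
    intro p
    obtain ⟨M, hM, h2, -⟩ := SDc_data (h p.1 p.2)
    exact ⟨M, hM, cx_mem (by linarith) h2⟩
  choose M hM hM' using h1
  refine ⟨∑ p, M p, ?_, fun i j => ?_⟩
  · exact (hM (0, 0)).trans (Finset.single_le_sum (f := M) (fun p _ => by linarith [hM p]) (Finset.mem_univ (0, 0)))
  · exact Cw_mono (Finset.single_le_sum (f := M) (fun p _ => by linarith [hM p]) (Finset.mem_univ (i, j))) (hM' (i, j))

lemma cx_xp (f : ℚ⟦X⟧) : cx (xp f) = expand 12 Pool.Agent.Y124.GE.h12 (cx f) := by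
  ext n
  rw [coeff_expand]
  have h1 : ∀ (g : ℚ⟦X⟧) m, coeff m (cx g) = ((coeff m g : ℚ) : ℂ) := fun g m => by
    simp [cx]
  rw [h1, coeff_expand]
  split_ifs with h
  · rw [h1]
  · simp

lemma inn_xp (f : ℚ⟦X⟧) (w : ℂ) : inn (cx (xp f)) w = inn (cx f) (w ^ 12) := by
  rw [cx_xp, inn_eq_ou, Pool.Agent.Y120.GH.ou_expand, inn_eq_ou]
  congr 1
  rw [one_div_pow]

lemma LIb.down {K K' : IntermediateField ℚ ℂ} (h : K ≤ K') {δ e : ℕ} {z : Fin e → ℂ} (hz : LIb K' δ z) : LIb K δ z := by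
  classical
  unfold LIb at hz ⊢
  rw [Fintype.linearIndependent_iff] at hz ⊢
  intro g hg i
  have h1 := hz (fun i => ⟨(g i : ℂ), h (g i).2⟩) (by
    rw [← hg]
    refine Finset.sum_congr rfl fun i _ => ?_
    rw [Algebra.smul_def, Algebra.smul_def]
    rfl) i
  have h2 := congrArg (fun x : K' => (x : ℂ)) h1
  exact Subtype.ext h2

/-- adjoining roots -/
lemma roots_field {D : ℕ} (K : IntermediateField ℚ ℂ) [FiniteDimensional ℚ K] (hK : finrank ℚ K ≤ D) {k : ℕ} (w : Fin k → ℂ)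
    (q : Fin k → ℚ) (hw : ∀ l, w l ^ 12 = (q l : ℂ)) :
    ∃ K' : IntermediateField ℚ ℂ, ∃ _ : FiniteDimensional ℚ K', K ≤ K' ∧ finrank ℚ K' ≤ D * 12 ^ k ∧ ∀ l, w l ∈ K' := by
  classical
  have key : ∀ s : Finset (Fin k), ∃ K' : IntermediateField ℚ ℂ, ∃ _ : FiniteDimensional ℚ K', K ≤ K' ∧
      finrank ℚ K' ≤ D * 12 ^ s.card ∧ ∀ l ∈ s, w l ∈ K' := by
    intro s
    induction s using Finset.induction_on with
    | empty => exact ⟨K, inferInstance, le_rfl, by simpa using hK, fun l hl => absurd hl (Finset.notMem_empty _)⟩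
    | insert a s ha ih =>
      obtain ⟨K', hf, h1, h2, h3⟩ := ih
      set P : Polynomial ℚ := Polynomial.X ^ 12 - Polynomial.C (q a) with hP
      have hPm : P.Monic := Polynomial.monic_X_pow_sub_C _ (by norm_num)
      have hPr : Polynomial.aeval (w a) P = 0 := by
        rw [hP]
        simp [hw]
      have hint : IsIntegral ℚ (w a) := ⟨P, hPm, hPr⟩
      have hfa : FiniteDimensional ℚ (IntermediateField.adjoin ℚ {w a}) := IntermediateField.adjoin.finiteDimensional hint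
      have hdeg : finrank ℚ (IntermediateField.adjoin ℚ {w a}) ≤ 12 := by
        rw [IntermediateField.adjoin.finrank hint]
        have := Polynomial.natDegree_le_of_dvd (minpoly.dvd ℚ (w a) hPr) hPm.ne_zero
        rwa [hP, Polynomial.natDegree_X_pow_sub_C] at this
      refine ⟨K' ⊔ IntermediateField.adjoin ℚ {w a}, IntermediateField.finiteDimensional_sup _ _, h1.trans le_sup_left, ?_, ?_⟩
      · rw [Finset.card_insert_of_notMem ha, pow_succ, ← mul_assoc]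
        exact (IntermediateField.finrank_sup_le _ _).trans (Nat.mul_le_mul h2 hdeg)
      · intro l hl
        rcases Finset.mem_insert.1 hl with rfl | hl
        · exact le_sup_right (α := IntermediateField ℚ ℂ) (IntermediateField.mem_adjoin_simple_self ℚ (w l))
        · exact le_sup_left (α := IntermediateField ℚ ℂ) (h3 l hl)
  obtain ⟨K', hf, h1, h2, h3⟩ := key Finset.univ
  rw [Finset.card_univ, Fintype.card_fin] at h2
  exact ⟨K', hf, h1, h2, fun l => h3 l (Finset.mem_univ _)⟩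

variable {a b : Polynomial ℚ}

/-- the three values -/
noncomputable def X3 (L : LD a b) (t g : ℕ) (i : Fin 3) : ℂ :=
  ![yv L 0 0 (1 / ((t - g : ℕ) : ℂ)), yv L 1 0 (1 / ((t - g : ℕ) : ℂ)), yv L 0 1 (1 / ((t - g : ℕ) : ℂ))] i

/-- the independence of the monomials in the values -/
theorem base_X3 (L : LD a b) (ha : a ≠ 0) (hb : b ≠ 0) (hD : De a b ≠ 0) (hnc : ∀ c : ℂ, cp a ^ 3 ≠ Polynomial.C c * cp b ^ 2)
    (hN : ∀ i j, L.N i j = 0) :
    ∃ R' : ℕ, ∀ δ k : ℕ, ∃ E : ℕ, ∀ H t : ℕ, (H + 2) ^ E ≤ t → ∀ g : Fin k → ℕ, SepR R' g → (∀ l, g l ≤ H) →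
      LinearIndependent ℚ (fun s : Fin k × Fin 3 → Fin (δ + 1) => ∏ i, X3 L t (g i.1) i.2 ^ (s i : ℕ)) := by
  classical
  obtain ⟨R, hR, hY⟩ := exists_rad L ha hD
  obtain ⟨u0, C, hu0, -, -, -, hind⟩ := link2 L hb hD hnc hR hY
  obtain ⟨R', hR'⟩ := base_Y3 L ha hD hR hY hu0 hind (Or.inl hN)
  refine ⟨R', fun δ k => ?_⟩
  obtain ⟨E, hE⟩ := hR' δ k
  refine ⟨E, fun H t hHt g hg hgH => ?_⟩
  have h1 := hE H t hHt g hg hgH
  have h2 := h1.comp (fun (s : Fin k × Fin 3 → Fin (δ + 1)) (x : Fin k × Fin 4) =>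
    if h : (x.2 : ℕ) < 3 then s (x.1, ⟨x.2, h⟩) else 0) (by
      intro s s' hss
      funext ⟨l, i⟩
      have h3 := congrFun hss (l, i.castSucc)
      simpa using h3)
  have h3 : (fun s : Fin k × Fin 3 → Fin (δ + 1) => ∏ i, X3 L t (g i.1) i.2 ^ (s i : ℕ)) =
      (fun s : Fin k × Fin 4 → Fin (δ + 1) => ∏ i, X4 L t (g i.1) i.2 ^ (s i : ℕ)) ∘
        (fun (s : Fin k × Fin 3 → Fin (δ + 1)) (x : Fin k × Fin 4) => if h : (x.2 : ℕ) < 3 then s (x.1, ⟨x.2, h⟩) else 0) := by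
    funext s
    show _ = ∏ i : Fin k × Fin 4, X4 L t (g i.1) i.2 ^ (((if h : (i.2 : ℕ) < 3 then s (i.1, ⟨i.2, h⟩) else 0) : Fin (δ + 1)) : ℕ)
    rw [Fintype.prod_prod_type, Fintype.prod_prod_type]
    refine Finset.prod_congr rfl fun l _ => ?_
    rw [Fin.prod_univ_castSucc (n := 3)]
    simp only [Fin.val_castSucc, Fin.is_lt, dite_true, Fin.eta, Fin.val_last, lt_irrefl, dite_false, Fin.val_zero, pow_zero, mul_one]
    refine Finset.prod_congr rfl fun i _ => ?_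
    congr 1
    fin_cases i <;> rfl
  rw [h3]
  exact h2

end Pool.Agent.T44.MS
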