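import Pool.Agent.T44.MS.Au

/-!
# The central fibre and the evaluation of the local solutions
-/

set_option autoImplicit false

open Pool.Agent.Y124.GE Pool.Agent.Y120.GH PowerSeries Filter Topology Module
open Pool.Agent.Y124.TD Pool.Agent.Y124.TG Pool.Agent.Y113
open Pool.Agent.TH21.MS (E4 E6 jj disc_ne)

namespace Pool.Agent.T44.MS

/-- the numbers of the central fibre -/
noncomputable def cen (z : ℂ) : Fin 4 → ℂ := ![z, tp * e2 z, tp ^ 2 * E4 z, tp ^ 3 * E6 z]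

lemma alg_int {s : ℕ} (ω : Fin s → ℂ) (q : ℚ) : IsAlgebraic (Algebra.adjoin ℚ (Set.range ω)) (q : ℂ) := by
  have h := isAlgebraic_algebraMap (R := Algebra.adjoin ℚ (Set.range ω)) (A := ℂ) (algebraMap ℚ (Algebra.adjoin ℚ (Set.range ω)) q)
  exact h

/-- the periods of the central fibre -/
theorem central {A0 B0 D0 : ℚ} (hDe : D0 = 4 * A0 ^ 3 + 27 * B0 ^ 2) (hD : D0 ≠ 0) (z0 : UpperHalfPlane)
    (hz0 : (D0 : ℂ) * jj z0 = 1728 * (4 * (A0 : ℂ) ^ 3)) :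
    ∃ F0 N0 : ℂ, F0 ≠ 0 ∧ tp * e2 z0 = -3 * (F0 * N0) ∧ tp ^ 2 * E4 z0 = -3 * ((A0 : ℂ) * F0 ^ 4) ∧
      tp ^ 3 * E6 z0 = -(27 / 2) * ((B0 : ℂ) * F0 ^ 6) ∧
      ∀ (s : ℕ) (ω : Fin s → ℂ), (∀ i, IsAlgebraic (Algebra.adjoin ℚ (Set.range ω)) (cen z0 i)) →
        ∀ p, IsAlgebraic (Algebra.adjoin ℚ (Set.range ω)) ((![F0, N0, z0 * F0, z0 * N0 - 4 / F0] : Fin 4 → ℂ) p) := by
  have t1 := tp_ne
  have hDc : (D0 : ℂ) ≠ 0 := by exact_mod_cast hD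
  have hDe' : (D0 : ℂ) = 4 * (A0 : ℂ) ^ 3 + 27 * (B0 : ℂ) ^ 2 := by
    rw [hDe]
    push_cast
    ring
  have hdisc := disc_ne z0
  have hj : jj z0 = 1728 * E4 z0 ^ 3 / (E4 z0 ^ 3 - E6 z0 ^ 2) := rfl
  rw [hj, mul_div_assoc', div_eq_iff hdisc] at hz0
  have hp : (-3 * (A0 : ℂ) / tp ^ 2) ^ 3 - (-(27 / 2) * (B0 : ℂ) / tp ^ 3) ^ 2 ≠ 0 := by
    have h1 : (-3 * (A0 : ℂ) / tp ^ 2) ^ 3 - (-(27 / 2) * (B0 : ℂ) / tp ^ 3) ^ 2 = -(27 / 4) * D0 / tp ^ 6 := by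
      rw [hDe']
      field_simp
      ring
    rw [h1]
    exact div_ne_zero (mul_ne_zero (by norm_num) hDc) (pow_ne_zero _ t1)
  have hq : (-3 * (A0 : ℂ) / tp ^ 2) ^ 3 * E6 z0 ^ 2 = E4 z0 ^ 3 * (-(27 / 2) * (B0 : ℂ) / tp ^ 3) ^ 2 := by
    rw [hDe'] at hz0
    field_simp
    linear_combination (-1 / 64 : ℂ) * hz0
  obtain ⟨F0, hF0, h4, h6⟩ := Pool.Agent.T44.JI.exists_scale hp hdisc hq
  have h4' : tp ^ 2 * E4 z0 = -3 * ((A0 : ℂ) * F0 ^ 4) := by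
    rw [h4]
    field_simp
  have h6' : tp ^ 3 * E6 z0 = -(27 / 2) * ((B0 : ℂ) * F0 ^ 6) := by
    rw [h6]
    field_simp
  refine ⟨F0, -(tp * e2 z0) / (3 * F0), hF0, ?_, h4', h6', fun s ω hω => ?_⟩
  · field_simp
  · have a0 : IsAlgebraic (Algebra.adjoin ℚ (Set.range ω)) (z0 : ℂ) := hω 0
    have a1 : IsAlgebraic (Algebra.adjoin ℚ (Set.range ω)) (tp * e2 z0) := hω 1
    have a2 : IsAlgebraic (Algebra.adjoin ℚ (Set.range ω)) (tp ^ 2 * E4 z0) := hω 2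
    have a3 : IsAlgebraic (Algebra.adjoin ℚ (Set.range ω)) (tp ^ 3 * E6 z0) := hω 3
    have aF : IsAlgebraic (Algebra.adjoin ℚ (Set.range ω)) F0 := by
      by_cases hA0 : A0 = 0
      · have hB0 : B0 ≠ 0 := by
          rintro rfl
          rw [hA0] at hDe
          exact hD (by rw [hDe]; norm_num)
        have hB0' : (B0 : ℂ) ≠ 0 := by exact_mod_cast hB0
        have h1 : F0 ^ 6 = ((-(2 / (27 * B0)) : ℚ) : ℂ) * (tp ^ 3 * E6 z0) := by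
          rw [h6']
          push_cast
          field_simp
        have h2 : IsAlgebraic (Algebra.adjoin ℚ (Set.range ω)) (F0 ^ 6) := by
          rw [h1]
          exact (alg_int ω _).mul a3
        exact IsAlgebraic.of_pow (by norm_num) h2
      · have hA0' : (A0 : ℂ) ≠ 0 := by exact_mod_cast hA0
        have h1 : F0 ^ 4 = ((-(1 / (3 * A0)) : ℚ) : ℂ) * (tp ^ 2 * E4 z0) := by
          rw [h4']
          push_cast
          field_simp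
        have h2 : IsAlgebraic (Algebra.adjoin ℚ (Set.range ω)) (F0 ^ 4) := by
          rw [h1]
          exact (alg_int ω _).mul a2
        exact IsAlgebraic.of_pow (by norm_num) h2
    have aN : IsAlgebraic (Algebra.adjoin ℚ (Set.range ω)) (-(tp * e2 z0) / (3 * F0)) := by
      have h1 : -(tp * e2 z0) / (3 * F0) = ((-(1 / 3) : ℚ) : ℂ) * (tp * e2 z0) * F0⁻¹ := by
        push_cast
        field_simp
      rw [h1]
      exact ((alg_int ω _).mul a1).mul aF.inv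
    intro p
    fin_cases p
    · exact aF
    · exact aN
    · exact a0.mul aF
    · show IsAlgebraic _ ((z0 : ℂ) * (-(tp * e2 z0) / (3 * F0)) - 4 / F0)
      have h1 : (z0 : ℂ) * (-(tp * e2 z0) / (3 * F0)) - 4 / F0 = z0 * (-(tp * e2 z0) / (3 * F0)) + ((-4 : ℚ) : ℂ) * F0⁻¹ := by
        push_cast
        ring
      rw [h1]
      exact (a0.mul aN).add ((alg_int ω _).mul aF.inv)

/-! ### evaluation -/

lemma cx_cp (P : Polynomial ℚ) : cx (P : ℚ⟦X⟧) = ((cp P : Polynomial ℂ) : PowerSeries ℂ) := cx_poly P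

lemma pv_xp {P Q : Polynomial ℚ} {n : ℕ} (h : xp (P : ℚ⟦X⟧) = X ^ n * (Q : ℚ⟦X⟧)) (x : ℝ) :
    pv P (x ^ 12) = (x : ℂ) ^ n * pv Q x := by
  have h1 : X ^ n * (Q : ℚ⟦X⟧) = ((Polynomial.X ^ n * Q : Polynomial ℚ) : ℚ⟦X⟧) := by
    simp only [Polynomial.coe_mul, Polynomial.coe_pow, Polynomial.coe_X]
  have h2 := inn_xp (P : ℚ⟦X⟧) (x : ℂ)
  rw [h, h1, cx_cp, cx_cp, inn_poly, inn_poly] at h2
  unfold pv
  push_cast
  rw [← h2]
  simp [cp]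

lemma inn_ex {f S : ℚ⟦X⟧} {n : ℕ} (h : xp f = X ^ n * S) {R : ℝ} (hR : 1 ≤ R) (hS : cx S ∈ Cw R) {x : ℝ} (hx : |x| < 1 / R) :
    inn (cx f) ((x : ℂ) ^ 12) = (x : ℂ) ^ n * inn (cx S) (x : ℂ) := by
  have hu : ‖(x : ℂ)‖ < 1 / R := by rwa [Complex.norm_real]
  have h1 : X ^ n * S = ((Polynomial.X ^ n : Polynomial ℚ) : ℚ⟦X⟧) * S := by
    simp only [Polynomial.coe_pow, Polynomial.coe_X]
  have h2 := inn_xp f (x : ℂ)
  rw [h, h1, map_mul, cx_cp, inn_mul hR (poly_mem _) hS hu, inn_poly] at h2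
  rw [← h2]
  simp [cp]

lemma pv_mem {K : IntermediateField ℚ ℂ} (P : Polynomial ℚ) {x : ℝ} (hx : (x : ℂ) ∈ K) : pv P x ∈ K := by
  unfold pv cp
  rw [Polynomial.eval_map, Polynomial.eval₂_eq_sum_range]
  exact sum_mem fun i _ => K.mul_mem (K.algebraMap_mem _) (pow_mem hx i)

end Pool.Agent.T44.MS
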