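import Pool.Agent.T44.MS.Per

/-!
# The Eisenstein series along a family of elliptic curves with smooth central fibre
-/

set_option autoImplicit false

open Pool.Agent.Y124.GE Pool.Agent.Y120.GH PowerSeries Filter Topology
open UpperHalfPlane (ofComplex)
open Pool.Agent.TH21.MS (E4 E6 jj disc_ne)

namespace Pool.Agent.T44.MS

/-- the vector field of Ramanujan's system -/
noncomputable def VF (y : ℂ × ℂ × ℂ) : ℂ × ℂ × ℂ :=
  ((y.1 ^ 2 - y.2.1) / 12, (y.1 * y.2.1 - y.2.2) / 3, (y.1 * y.2.2 - y.2.1 ^ 2) / 2)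

lemma VF_lip (y : ℂ × ℂ × ℂ) : ∃ K, ∃ t ∈ 𝓝 y, LipschitzOnWith K VF t := by
  have h : ContDiffAt ℝ 1 VF y := by
    unfold VF
    fun_prop
  exact h.exists_lipschitzOnWith

/-- uniqueness for Ramanujan's system -/
lemma VF_unique {κ : ℝ → ℂ} (hκ : ContinuousAt κ 0) {f g : ℝ → ℂ × ℂ × ℂ} (hf : ∀ᶠ x in 𝓝 (0 : ℝ), HasDerivAt f (κ x • VF (f x)) x)
    (hg : ∀ᶠ x in 𝓝 (0 : ℝ), HasDerivAt g (κ x • VF (g x)) x) (h0 : f 0 = g 0) : f =ᶠ[𝓝 0] g := by
  obtain ⟨K, t, ht, hK⟩ := VF_lip (f 0)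
  have hfc : ContinuousAt f 0 := hf.self_of_nhds.continuousAt
  have hgc : ContinuousAt g 0 := hg.self_of_nhds.continuousAt
  have hft : ∀ᶠ x in 𝓝 (0 : ℝ), f x ∈ t := hfc.eventually_mem ht
  have hgt : ∀ᶠ x in 𝓝 (0 : ℝ), g x ∈ t := hgc.eventually_mem (by rw [← h0]; exact ht)
  have hκb : ∀ᶠ x in 𝓝 (0 : ℝ), ‖κ x‖ < ‖κ 0‖ + 1 := by
    have := hκ.norm
    exact this.eventually_lt_const (by linarith)
  set B : NNReal := ⟨‖κ 0‖ + 1, by positivity⟩ with hB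
  refine ODE_solution_unique_of_eventually (v := fun x y => κ x • VF y) (s := fun _ => t) (K := B * K) ?_ (hf.and hft) (hg.and hgt) h0
  filter_upwards [hκb] with x hx
  refine LipschitzOnWith.of_dist_le_mul fun y hy y' hy' => ?_
  rw [dist_smul₀]
  have h1 := hK.dist_le_mul y hy y' hy'
  have h2 : ((B * K : NNReal) : ℝ) = (‖κ 0‖ + 1) * K := by
    rw [NNReal.coe_mul]
    rfl
  rw [h2, mul_assoc]
  exact mul_le_mul hx.le h1 dist_nonneg (by positivity)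

variable {a b : Polynomial ℚ} {Z : Fin 2 → Fin 2 → ℚ⟦X⟧}

lemma pv_cont (P : Polynomial ℚ) (x : ℝ) : ContinuousAt (pv P) x := (pv_deriv P x).continuousAt

lemma ev_small {R : ℝ} (hR : 1 ≤ R) : ∀ᶠ x in 𝓝 (0 : ℝ), |x| < 1 / R := by
  have h : ContinuousAt (fun x : ℝ => |x|) 0 := continuous_abs.continuousAt
  refine h.eventually_lt_const ?_
  show |(0 : ℝ)| < 1 / R
  rw [abs_zero]
  positivity

section
variable (hZ : Sol a b Z) {R : ℝ} (hR : 1 ≤ R) (hY : ∀ i j, cx (Z i j) ∈ Cw R) (hD : pv (De a b) 0 ≠ 0)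
include hZ hR hY hD

lemma det_ev (α β γ δ : ℂ) : ∀ᶠ x in 𝓝 (0 : ℝ), rw' Z α β 0 x * rw' Z γ δ 1 x - rw' Z α β 1 x * rw' Z γ δ 0 x = α * δ - β * γ := by
  have hDe : ∀ᶠ x in 𝓝 (0 : ℝ), pv (De a b) x ≠ 0 := (pv_cont _ 0).eventually_ne hD
  have h0 : rw' Z α β 0 0 * rw' Z γ δ 1 0 - rw' Z α β 1 0 * rw' Z γ δ 0 0 = α * δ - β * γ := by
    rw [(rw_zero hZ α β).1, (rw_zero hZ α β).2, (rw_zero hZ γ δ).1, (rw_zero hZ γ δ).2]
  refine ODE_solution_unique_of_eventually (v := fun _ _ => (0 : ℂ)) (s := fun _ => Set.univ) (K := 0)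
    (f := fun x => rw' Z α β 0 x * rw' Z γ δ 1 x - rw' Z α β 1 x * rw' Z γ δ 0 x) (g := fun _ => α * δ - β * γ)
    (Eventually.of_forall fun _ => (LipschitzWith.const (0 : ℂ)).lipschitzOnWith) ?_
    (Eventually.of_forall fun x => ⟨hasDerivAt_const x _, Set.mem_univ _⟩) h0
  filter_upwards [hDe, ev_small hR] with x hx hx'
  refine ⟨?_, Set.mem_univ _⟩
  have e1 := rw_deriv hZ hR hY hx' hx α β 0
  have e2 := rw_deriv hZ hR hY hx' hx α β 1
  have e3 := rw_deriv hZ hR hY hx' hx γ δ 0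
  have e4 := rw_deriv hZ hR hY hx' hx γ δ 1
  refine ((e1.mul e4).sub (e2.mul e3)).congr_deriv ?_
  rw [pv_AE00, pv_AE01, pv_AE10, pv_AE11]
  ring

/-- **The Eisenstein series along the family** -/
theorem curve (z0 : UpperHalfPlane) (F0 N0 : ℂ) (hF0 : F0 ≠ 0) (h2 : tp * e2 z0 = -3 * (F0 * N0))
    (h4 : tp ^ 2 * E4 z0 = -3 * (pv a 0 * F0 ^ 4)) (h6 : tp ^ 3 * E6 z0 = -(27 / 2) * (pv b 0 * F0 ^ 6)) :
    ∀ᶠ x in 𝓝 (0 : ℝ), ∃ w : UpperHalfPlane, pv (De a b) x ≠ 0 ∧ rw' Z F0 N0 0 x ≠ 0 ∧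
      (w : ℂ) * rw' Z F0 N0 0 x = rw' Z (z0 * F0) (z0 * N0 - 4 / F0) 0 x ∧
      rw' Z F0 N0 0 x * rw' Z (z0 * F0) (z0 * N0 - 4 / F0) 1 x - rw' Z F0 N0 1 x * rw' Z (z0 * F0) (z0 * N0 - 4 / F0) 0 x = -4 ∧
      tp * e2 w = -3 * (rw' Z F0 N0 0 x * rw' Z F0 N0 1 x) ∧ tp ^ 2 * E4 w = -3 * (pv a x * rw' Z F0 N0 0 x ^ 4) ∧
      tp ^ 3 * E6 w = -(27 / 2) * (pv b x * rw' Z F0 N0 0 x ^ 6) := by
  set F : ℝ → ℂ := rw' Z F0 N0 0 with hF
  set N : ℝ → ℂ := rw' Z F0 N0 1 with hN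
  set G : ℝ → ℂ := rw' Z (z0 * F0) (z0 * N0 - 4 / F0) 0 with hG
  set M : ℝ → ℂ := rw' Z (z0 * F0) (z0 * N0 - 4 / F0) 1 with hM
  have F00 : F 0 = F0 := (rw_zero hZ _ _).1
  have N00 : N 0 = N0 := (rw_zero hZ _ _).2
  have G00 : G 0 = z0 * F0 := (rw_zero hZ _ _).1
  have hDe : ∀ᶠ x in 𝓝 (0 : ℝ), pv (De a b) x ≠ 0 := (pv_cont _ 0).eventually_ne hD
  have hx0 : |(0 : ℝ)| < 1 / R := by rw [abs_zero]; positivity
  have hFc : ContinuousAt F 0 := (rw_deriv hZ hR hY hx0 hD _ _ 0).continuousAt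
  have hGc : ContinuousAt G 0 := (rw_deriv hZ hR hY hx0 hD _ _ 0).continuousAt
  have hFne : ∀ᶠ x in 𝓝 (0 : ℝ), F x ≠ 0 := hFc.eventually_ne (by rw [F00]; exact hF0)
  have hdet : ∀ᶠ x in 𝓝 (0 : ℝ), F x * M x - N x * G x = -4 := by
    filter_upwards [det_ev hZ hR hY hD F0 N0 (z0 * F0) (z0 * N0 - 4 / F0)] with x hx
    rw [hF, hM, hN, hG, hx]
    field_simp
    ring
  have hzc : ContinuousAt (fun x => G x / F x) 0 := hGc.div hFc (by rw [F00]; exact hF0)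
  have hz00 : G 0 / F 0 = z0 := by
    rw [G00, F00, mul_div_assoc, div_self hF0, mul_one]
  have him : ∀ᶠ x in 𝓝 (0 : ℝ), 0 < (G x / F x).im := by
    have h1 : ContinuousAt (fun x => (G x / F x).im) 0 := Complex.continuous_im.continuousAt.comp hzc
    refine h1.eventually_const_lt ?_
    show 0 < (G 0 / F 0).im
    rw [hz00]
    exact z0.im_pos
  -- the speed
  set W : ℝ → ℂ := fun x => 2 * pv a x * pv (Polynomial.derivative b) x - 3 * pv (Polynomial.derivative a) x * pv b x with hW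
  set κ : ℝ → ℂ := fun x => tp * (6 * W x / (pv (De a b) x * F x ^ 2)) with hκ
  have hκc : ContinuousAt κ 0 := by
    have c1 := pv_cont a 0
    have c2 := pv_cont b 0
    have c3 := pv_cont (Polynomial.derivative a) 0
    have c4 := pv_cont (Polynomial.derivative b) 0
    have c5 := pv_cont (De a b) 0
    have c6 : ContinuousAt W 0 := ((continuousAt_const.mul c1).mul c4).sub ((continuousAt_const.mul c3).mul c2)
    exact continuousAt_const.mul ((continuousAt_const.mul c6).div (c5.mul (hFc.pow 2))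
      (mul_ne_zero hD (pow_ne_zero _ (by rw [F00]; exact hF0))))
  have hderF : ∀ᶠ x in 𝓝 (0 : ℝ), HasDerivAt F ((F x * pv (AE a b 0 0) x + N x * pv (AE a b 1 0) x) / pv (De a b) x) x := by
    filter_upwards [hDe, ev_small hR] with x hx hx'
    exact rw_deriv hZ hR hY hx' hx _ _ 0
  have hderN : ∀ᶠ x in 𝓝 (0 : ℝ), HasDerivAt N ((F x * pv (AE a b 0 1) x + N x * pv (AE a b 1 1) x) / pv (De a b) x) x := by
    filter_upwards [hDe, ev_small hR] with x hx hx'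
    exact rw_deriv hZ hR hY hx' hx _ _ 1
  have hderG : ∀ᶠ x in 𝓝 (0 : ℝ), HasDerivAt G ((G x * pv (AE a b 0 0) x + M x * pv (AE a b 1 0) x) / pv (De a b) x) x := by
    filter_upwards [hDe, ev_small hR] with x hx hx'
    exact rw_deriv hZ hR hY hx' hx _ _ 0
  have hderz : ∀ᶠ x in 𝓝 (0 : ℝ), HasDerivAt (fun x => G x / F x) (6 * W x / (pv (De a b) x * F x ^ 2)) x := by
    filter_upwards [hDe, hFne, hderF, hderG, hdet] with x k1 k2 k3 k4 k5
    refine (k4.div k3 k2).congr_deriv ?_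
    rw [pv_AE00, pv_AE10]
    simp only [hW]
    field_simp
    linear_combination (-(3 : ℂ) * (2 * pv a x * pv (Polynomial.derivative b) x - 3 * pv b x * pv (Polynomial.derivative a) x)) * k5
  -- the two solutions
  set f : ℝ → ℂ × ℂ × ℂ := fun x => (e2 (G x / F x), E4 (G x / F x), E6 (G x / F x)) with hf
  set g : ℝ → ℂ × ℂ × ℂ := fun x => (-3 * (F x * N x) / tp, -3 * (pv a x * F x ^ 4) / tp ^ 2, -(27 / 2) * (pv b x * F x ^ 6) / tp ^ 3)
    with hg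
  have hfd : ∀ᶠ x in 𝓝 (0 : ℝ), HasDerivAt f (κ x • VF (f x)) x := by
    filter_upwards [hderz, him] with x k1 k2
    set w : UpperHalfPlane := ⟨G x / F x, k2⟩ with hw
    have d2 : HasDerivAt e2 (tp * ((e2 (G x / F x) ^ 2 - E4 (G x / F x)) / 12)) (G x / F x) := de2 w
    have d4 : HasDerivAt E4 (tp * ((e2 (G x / F x) * E4 (G x / F x) - E6 (G x / F x)) / 3)) (G x / F x) := de4 w
    have d6 : HasDerivAt E6 (tp * ((e2 (G x / F x) * E6 (G x / F x) - E4 (G x / F x) ^ 2) / 2)) (G x / F x) := de6 w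
    have s2 := d2.scomp x k1
    have s4 := d4.scomp x k1
    have s6 := d6.scomp x k1
    refine (s2.prodMk (s4.prodMk s6)).congr_deriv ?_
    simp only [hf, VF, hκ, Prod.smul_mk, smul_eq_mul]
    refine Prod.ext ?_ (Prod.ext ?_ ?_) <;> simp only <;> ring
  have hgd : ∀ᶠ x in 𝓝 (0 : ℝ), HasDerivAt g (κ x • VF (g x)) x := by
    filter_upwards [hDe, hFne, hderF, hderN] with x k1 k2 k3 k4
    have t1 := tp_ne
    have g2 := ((k3.mul k4).const_mul (-3 : ℂ)).div_const tp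
    have g4 := ((((pv_deriv a x).mul (k3.pow 4))).const_mul (-3 : ℂ)).div_const (tp ^ 2)
    have g6 := ((((pv_deriv b x).mul (k3.pow 6))).const_mul (-(27 / 2) : ℂ)).div_const (tp ^ 3)
    refine (g2.prodMk (g4.prodMk g6)).congr_deriv ?_
    simp only [hg, VF, hκ, Prod.smul_mk, smul_eq_mul, Pi.pow_apply, pv_AE00, pv_AE01, pv_AE10, pv_AE11, hW]
    refine Prod.ext ?_ (Prod.ext ?_ ?_) <;> simp only
    · field_simp
      ring
    · push_cast
      field_simp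
      rw [pv_De]
      ring
    · push_cast
      field_simp
      rw [pv_De]
      ring
  have h00 : f 0 = g 0 := by
    have t1 := tp_ne
    simp only [hf, hg]
    rw [hz00, F00, N00]
    refine Prod.ext ?_ (Prod.ext ?_ ?_) <;> simp only
    · rw [eq_div_iff t1, ← h2]
      ring
    · rw [eq_div_iff (pow_ne_zero _ t1), ← h4]
      ring
    · rw [eq_div_iff (pow_ne_zero _ t1), ← h6]
      ring
  filter_upwards [hDe, hFne, hdet, him, VF_unique hκc hfd hgd h00] with x k1 k2 k3 k4 k5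
  have t1 := tp_ne
  refine ⟨⟨G x / F x, k4⟩, k1, k2, ?_, k3, ?_, ?_, ?_⟩
  · show G x / F x * F x = G x
    rw [div_mul_cancel₀ _ k2]
  · have k6 := congrArg Prod.fst k5
    simp only [hf, hg] at k6
    show tp * e2 (G x / F x) = _
    rw [k6]
    field_simp
  · have k6 := congrArg (fun y => y.2.1) k5
    simp only [hf, hg] at k6
    show tp ^ 2 * E4 (G x / F x) = _
    rw [k6]
    field_simp
  · have k6 := congrArg (fun y => y.2.2) k5
    simp only [hf, hg] at k6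
    show tp ^ 3 * E6 (G x / F x) = _
    rw [k6]
    field_simp

end

end Pool.Agent.T44.MS
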