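import Pool.Agent.T44.MS.Win

/-!
# Rational functions of integers
-/

set_option autoImplicit false

open Pool.Agent.Y124.GE PowerSeries Filter Topology Module
open Pool.Agent.Y124.TD Pool.Agent.Y124.TG
open Pool.Agent.TH21.MS (E4 E6 jj disc_ne)

namespace Pool.Agent.T44.MS

/-- the value of the rational function `P / Q` at `n` -/
noncomputable def vz (P Q : Polynomial ℚ) (n : ℤ) : ℂ := ((P.eval (n : ℚ) / Q.eval (n : ℚ) : ℚ) : ℂ)

/-- the integers lie in the window -/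
def InZ {ι : Type} (N : ℕ) (H : ℝ) (G : ℕ) (n : ι → ℤ) : Prop :=
  ((∀ l, (N : ℝ) ≤ n l ∧ (n l : ℝ) ≤ N + H) ∨ ∀ l, (N : ℝ) ≤ -(n l : ℝ) ∧ -(n l : ℝ) ≤ N + H) ∧
    ∀ l l', l ≠ l' → (G : ℤ) ≤ |n l - n l'|

lemma refl_q (f : Polynomial ℚ) {N : ℕ} (hf : f.natDegree ≤ N) {z : ℚ} (hz : z ≠ 0) :
    (Polynomial.reflect N f).eval (1 / z) * z ^ N = f.eval z := by
  let _ := invertibleOfNonzero hz
  have h := Polynomial.eval₂_reflect_mul_pow (RingHom.id ℚ) z N f hf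
  rw [invOf_eq_inv] at h
  rw [one_div]
  simpa [Polynomial.eval₂_id] using h

lemma refl_zero (f : Polynomial ℚ) (N : ℕ) : (Polynomial.reflect N f).eval 0 = f.coeff N := by
  rw [← Polynomial.coeff_zero_eq_eval_zero, Polynomial.coeff_reflect, Polynomial.revAt_zero]

lemma val_refl {P Q : Polynomial ℚ} (hdeg : P.natDegree ≤ Q.natDegree) {n : ℕ} (hn : 0 < n) :
    val (Polynomial.reflect Q.natDegree P) (Polynomial.reflect Q.natDegree Q) n = vz P Q n := by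
  have hn' : (n : ℚ) ≠ 0 := by
    have : n ≠ 0 := by omega
    exact_mod_cast this
  unfold val vz
  congr 1
  have h1 := refl_q P hdeg hn'
  have h2 := refl_q Q le_rfl hn'
  push_cast
  rw [← h1, ← h2, mul_div_mul_right _ _ (pow_ne_zero _ hn')]

lemma refl_nc {P Q : Polynomial ℚ} (hnc : ∀ c : ℚ, P ≠ Polynomial.C c * Q) (N : ℕ) (c : ℚ) :
    Polynomial.reflect N P ≠ Polynomial.C c * Polynomial.reflect N Q := by
  intro h
  apply hnc c
  have h1 := congrArg (Polynomial.reflect N) h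
  rwa [Polynomial.reflect_reflect, Polynomial.reflect_C_mul, Polynomial.reflect_reflect] at h1

/-- the sign change -/
noncomputable def ng (P : Polynomial ℚ) : Polynomial ℚ := P.comp (-Polynomial.X)

lemma ng_eval (P : Polynomial ℚ) (x : ℚ) : (ng P).eval x = P.eval (-x) := by
  simp [ng, Polynomial.eval_comp]

lemma ng_ng (P : Polynomial ℚ) : ng (ng P) = P := by
  unfold ng
  rw [Polynomial.comp_assoc]
  simp

lemma ng_natDegree (P : Polynomial ℚ) : (ng P).natDegree = P.natDegree := by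
  unfold ng
  rw [Polynomial.natDegree_comp]
  simp

lemma ng_coeff (P : Polynomial ℚ) (N : ℕ) : (ng P).coeff N = (-1) ^ N * P.coeff N := by
  unfold ng
  rw [show (-Polynomial.X : Polynomial ℚ) = Polynomial.C (-1) * Polynomial.X by simp, Polynomial.comp_C_mul_X_coeff]
  ring

lemma ng_nc {P Q : Polynomial ℚ} (hnc : ∀ c : ℚ, P ≠ Polynomial.C c * Q) (c : ℚ) : ng P ≠ Polynomial.C c * ng Q := by
  intro h
  apply hnc c
  have h1 := congrArg ng h
  rw [ng_ng] at h1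
  rw [h1]
  unfold ng
  rw [Polynomial.mul_comp, Polynomial.C_comp]
  have h2 := ng_ng Q
  unfold ng at h2
  rw [h2]

lemma ng_vz (P Q : Polynomial ℚ) (n : ℕ) : vz (ng P) (ng Q) n = vz P Q (-(n : ℤ)) := by
  unfold vz
  rw [ng_eval, ng_eval]
  push_cast
  rfl

/-- the limit -/
lemma ng_lim {P Q : Polynomial ℚ} :
    (ng P).coeff (ng Q).natDegree / (ng Q).coeff (ng Q).natDegree = P.coeff Q.natDegree / Q.coeff Q.natDegree := by
  rw [ng_natDegree, ng_coeff, ng_coeff, mul_div_mul_left _ _ (pow_ne_zero _ (by norm_num))]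

/-- both signs -/
lemma both {ι : Type} {P Q : Polynomial ℚ} {N : ℕ} {H : ℝ} {G : ℕ} {n : ι → ℤ} (h : InZ N H G n) :
    (∃ m : ι → ℕ, InW N H G m ∧ ∀ l, vz P Q (n l) = vz P Q (m l)) ∨
      ∃ m : ι → ℕ, InW N H G m ∧ ∀ l, vz P Q (n l) = vz (ng P) (ng Q) (m l) := by
  obtain ⟨h1 | h1, h2⟩ := h
  · left
    have h0 : ∀ l, (0 : ℤ) ≤ n l := fun l => by
      have h1 : (0 : ℝ) ≤ n l := (Nat.cast_nonneg N).trans (h1 l).1
      exact_mod_cast h1
    choose m hm using fun l => Int.eq_ofNat_of_zero_le (h0 l)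
    have hm' : ∀ l, ((m l : ℕ) : ℝ) = n l := fun l => by
      rw [hm l]
      simp
    refine ⟨m, ⟨fun l => ⟨?_, ?_⟩, fun l l' hll => ?_⟩, fun l => by rw [hm]⟩
    · have h4 := (h1 l).1
      rw [← hm'] at h4
      exact_mod_cast h4
    · rw [hm']
      exact (h1 l).2
    · have h5 := h2 l l' hll
      rw [hm l, hm l'] at h5
      rcases le_total (m l) (m l') with h8 | h8
      · rw [abs_of_nonpos (by omega)] at h5
        left
        omega
      · rw [abs_of_nonneg (by omega)] at h5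
        right
        omega
  · right
    have h0 : ∀ l, (0 : ℤ) ≤ -n l := fun l => by
      have h1 : (0 : ℝ) ≤ -(n l : ℝ) := (Nat.cast_nonneg N).trans (h1 l).1
      exact_mod_cast h1
    choose m hm using fun l => Int.eq_ofNat_of_zero_le (h0 l)
    have hm0 : ∀ l, n l = -(m l : ℤ) := fun l => by
      have := hm l
      omega
    have hm' : ∀ l, ((m l : ℕ) : ℝ) = -(n l : ℝ) := fun l => by
      rw [hm0 l]
      simp
    refine ⟨m, ⟨fun l => ⟨?_, ?_⟩, fun l l' hll => ?_⟩, fun l => ?_⟩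
    · have h4 := (h1 l).1
      rw [← hm'] at h4
      exact_mod_cast h4
    · rw [hm']
      exact (h1 l).2
    · have h5 := h2 l l' hll
      rw [hm0 l, hm0 l'] at h5
      rcases le_total (m l) (m l') with h8 | h8
      · rw [abs_of_nonneg (by omega)] at h5
        left
        omega
      · rw [abs_of_nonpos (by omega)] at h5
        right
        omega
    · rw [ng_vz, hm0]

lemma InZ.mono {ι : Type} {N : ℕ} {H H' : ℝ} {G G' : ℕ} {n : ι → ℤ} (hH : H ≤ H') (hG : G' ≤ G) (h : InZ N H G n) : InZ N H' G' n := by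
  refine ⟨?_, fun l l' hll => le_trans (by exact_mod_cast hG) (h.2 l l' hll)⟩
  rcases h.1 with h1 | h1
  · exact Or.inl fun l => ⟨(h1 l).1, (h1 l).2.trans (by linarith)⟩
  · exact Or.inr fun l => ⟨(h1 l).1, (h1 l).2.trans (by linarith)⟩

/-- **All tuples of integers of a window** -/
theorem int_win {P Q : Polynomial ℚ} (hQ : Q ≠ 0) (hdeg : P.natDegree ≤ Q.natDegree) (hnc : ∀ c : ℚ, P ≠ Polynomial.C c * Q)
    (z0 : UpperHalfPlane) (hz0 : jj z0 = ((P.coeff Q.natDegree / Q.leadingCoeff : ℚ) : ℂ)) (s : ℕ) (ω : Fin s → ℂ)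
    (hω : ∀ i, IsAlgebraic (Algebra.adjoin ℚ (Set.range ω)) (cen z0 i)) :
    ∃ G : ℕ, ∀ k δ D : ℕ, ∃ (c : ℝ) (N₀ : ℕ), 0 < c ∧ ∀ N : ℕ, N₀ ≤ N →
      (∀ n : Fin k → ℤ, InZ N ((N : ℝ) ^ c) G n → ∀ z : Fin k → UpperHalfPlane, (∀ l, jj (z l) = vz P Q (n l)) →
        ∀ (K : IntermediateField ℚ ℂ) [FiniteDimensional ℚ K], finrank ℚ K ≤ D →
          ∃ σ : Fin (k * 3) → (Fin k × Fin 3) ⊕ Fin s, Function.Injective σ ∧
            LIb K δ (fun i => Sum.elim (fun v : Fin k × Fin 3 => jt (z v.1) v.2) ω (σ i))) ∧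
      ∀ n : Fin (s + 1) × Fin k → ℤ, InZ N ((N : ℝ) ^ c) G n →
        ∃ i, ∀ z : Fin k → UpperHalfPlane, (∀ l, jj (z l) = vz P Q (n (i, l))) →
          ∀ (K : IntermediateField ℚ ℂ) [FiniteDimensional ℚ K], finrank ℚ K ≤ D →
            ∃ σ : Fin (k * 3) → (Fin k × Fin 3), Function.Injective σ ∧ LIb K δ (fun i => jt (z (σ i).1) (σ i).2) := by
  have key : ∀ P Q : Polynomial ℚ, Q ≠ 0 → P.natDegree ≤ Q.natDegree → (∀ c : ℚ, P ≠ Polynomial.C c * Q) →
      jj z0 = ((P.coeff Q.natDegree / Q.coeff Q.natDegree : ℚ) : ℂ) →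
      ∃ G : ℕ, ∀ k δ D : ℕ, ∃ (c : ℝ) (N₀ : ℕ), 0 < c ∧ ∀ N : ℕ, N₀ ≤ N →
      (∀ n : Fin k → ℕ, InW N ((N : ℝ) ^ c) G n → ∀ z : Fin k → UpperHalfPlane, (∀ l, jj (z l) = vz P Q (n l)) →
        ∀ (K : IntermediateField ℚ ℂ) [FiniteDimensional ℚ K], finrank ℚ K ≤ D →
          ∃ σ : Fin (k * 3) → (Fin k × Fin 3) ⊕ Fin s, Function.Injective σ ∧
            LIb K δ (fun i => Sum.elim (fun v : Fin k × Fin 3 => jt (z v.1) v.2) ω (σ i))) ∧
      ∀ n : Fin (s + 1) × Fin k → ℕ, InW N ((N : ℝ) ^ c) G n →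
        ∃ i, ∀ z : Fin k → UpperHalfPlane, (∀ l, jj (z l) = vz P Q (n (i, l))) →
          ∀ (K : IntermediateField ℚ ℂ) [FiniteDimensional ℚ K], finrank ℚ K ≤ D →
            ∃ σ : Fin (k * 3) → (Fin k × Fin 3), Function.Injective σ ∧ LIb K δ (fun i => jt (z (σ i).1) (σ i).2) := by
    intro P Q hQ hdeg hnc hz0
    have hQ0 : (Polynomial.reflect Q.natDegree Q).eval 0 ≠ 0 := by
      rw [refl_zero]
      exact Polynomial.leadingCoeff_ne_zero.2 hQ
    have hz0' : jj z0 = (((Polynomial.reflect Q.natDegree P).eval 0 / (Polynomial.reflect Q.natDegree Q).eval 0 : ℚ) : ℂ) := by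
      rw [refl_zero, refl_zero]
      exact hz0
    obtain ⟨G₁, hG₁⟩ := win hQ0 (refl_nc hnc _) z0 hz0' s ω hω
    obtain ⟨G₂, hG₂⟩ := exc hQ0 (refl_nc hnc _) z0 hz0' s ω hω
    refine ⟨max G₁ G₂, fun k δ D => ?_⟩
    obtain ⟨c₁, N₁, hc₁, h₁⟩ := hG₁ k δ D
    obtain ⟨c₂, N₂, hc₂, h₂⟩ := hG₂ k δ D
    refine ⟨min c₁ c₂, max (max N₁ N₂) 1, lt_min hc₁ hc₂, fun N hN => ?_⟩
    have hN1 : N₁ ≤ N := ((le_max_left _ _).trans (le_max_left _ _)).trans hN
    have hN2 : N₂ ≤ N := ((le_max_right _ _).trans (le_max_left _ _)).trans hN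
    have hN3 : 1 ≤ N := (le_max_right _ _).trans hN
    have hN3' : (1 : ℝ) ≤ N := by exact_mod_cast hN3
    have hm : ∀ {ι : Type} {n : ι → ℕ} {c : ℝ} {G : ℕ}, min c₁ c₂ ≤ c → G ≤ max G₁ G₂ → InW N ((N : ℝ) ^ min c₁ c₂) (max G₁ G₂) n →
        InW N ((N : ℝ) ^ c) G n := by
      intro ι n c G hc hG h
      have h3 : (N : ℝ) ^ min c₁ c₂ ≤ (N : ℝ) ^ c := Real.rpow_le_rpow_of_exponent_le hN3' hc
      refine ⟨fun l => ⟨(h.1 l).1, (h.1 l).2.trans (by linarith)⟩, fun l l' hll => ?_⟩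
      rcases h.2 l l' hll with h4 | h4
      · left
        omega
      · right
        omega
    refine ⟨fun n hn z hz K _ hK => ?_, fun n hn => ?_⟩
    · refine h₁ N hN1 n (hm (min_le_left _ _) (le_max_left _ _) hn) z (fun l => ?_) K hK
      rw [hz, val_refl hdeg (by have := (hn.1 l).1; omega)]
    · obtain ⟨i, hi⟩ := h₂ N hN2 n (hm (min_le_right _ _) (le_max_right _ _) hn)
      refine ⟨i, fun z hz K _ hK => hi z (fun l => ?_) K hK⟩
      rw [hz, val_refl hdeg (by have := (hn.1 (i, l)).1; omega)]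
  obtain ⟨G₁, hG₁⟩ := key P Q hQ hdeg hnc hz0
  obtain ⟨G₂, hG₂⟩ := key (ng P) (ng Q) (by
      intro h0
      apply hQ
      rw [← ng_ng Q, h0]
      simp [ng]) (by rw [ng_natDegree, ng_natDegree]; exact hdeg) (ng_nc hnc) (by
      rw [ng_lim]
      exact hz0)
  refine ⟨max G₁ G₂, fun k δ D => ?_⟩
  obtain ⟨c₁, N₁, hc₁, h₁⟩ := hG₁ k δ D
  obtain ⟨c₂, N₂, hc₂, h₂⟩ := hG₂ k δ D
  refine ⟨min c₁ c₂, max (max N₁ N₂) 1, lt_min hc₁ hc₂, fun N hN => ?_⟩
  have hN1 : N₁ ≤ N := ((le_max_left _ _).trans (le_max_left _ _)).trans hN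
  have hN2 : N₂ ≤ N := ((le_max_right _ _).trans (le_max_left _ _)).trans hN
  have hN3 : 1 ≤ N := (le_max_right _ _).trans hN
  have hN3' : (1 : ℝ) ≤ N := by exact_mod_cast hN3
  have hm : ∀ {ι : Type} {n : ι → ℕ} {c : ℝ} {G : ℕ}, min c₁ c₂ ≤ c → G ≤ max G₁ G₂ → InW N ((N : ℝ) ^ min c₁ c₂) (max G₁ G₂) n →
      InW N ((N : ℝ) ^ c) G n := by
    intro ι n c G hc hG h
    have h3 : (N : ℝ) ^ min c₁ c₂ ≤ (N : ℝ) ^ c := Real.rpow_le_rpow_of_exponent_le hN3' hc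
    refine ⟨fun l => ⟨(h.1 l).1, (h.1 l).2.trans (by linarith)⟩, fun l l' hll => ?_⟩
    rcases h.2 l l' hll with h4 | h4
    · left
      omega
    · right
      omega
  refine ⟨fun n hn z hz K _ hK => ?_, fun n hn => ?_⟩
  · rcases both (P := P) (Q := Q) hn with ⟨m, hm', hv⟩ | ⟨m, hm', hv⟩
    · exact (h₁ N hN1).1 m (hm (min_le_left _ _) (le_max_left _ _) hm') z (fun l => by rw [hz, hv]) K hK
    · exact (h₂ N hN2).1 m (hm (min_le_right _ _) (le_max_right _ _) hm') z (fun l => by rw [hz, hv]) K hK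
  · rcases both (P := P) (Q := Q) hn with ⟨m, hm', hv⟩ | ⟨m, hm', hv⟩
    · obtain ⟨i, hi⟩ := (h₁ N hN1).2 m (hm (min_le_left _ _) (le_max_left _ _) hm')
      exact ⟨i, fun z hz K _ hK => hi z (fun l => by rw [hz, hv]) K hK⟩
    · obtain ⟨i, hi⟩ := (h₂ N hN2).2 m (hm (min_le_right _ _) (le_max_right _ _) hm')
      exact ⟨i, fun z hz K _ hK => hi z (fun l => by rw [hz, hv]) K hK⟩

end Pool.Agent.T44.MS
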