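import Pool.Agent.T44.MS.Cen

/-!
# All tuples of points near a point of (potentially) good reduction
-/

set_option autoImplicit false

open Pool.Agent.Y124.GE Pool.Agent.Y120.GH PowerSeries Filter Topology Module
open Pool.Agent.Y124.TD Pool.Agent.Y124.TG Pool.Agent.Y113
open Pool.Agent.TH21.MS (E4 E6 jj disc_ne)

namespace Pool.Agent.T44.MS

/-- the numbers `z`, `j'(z)`, `j''(z)` -/
noncomputable def jt (z : ℂ) : Fin 3 → ℂ := ![z, deriv jj z, deriv (deriv jj) z]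

/-- a family with potentially good reduction at `0` -/
structure Fam (a b A B : Polynomial ℚ) (w : ℕ) : Prop where
  hA : xp (a : ℚ⟦X⟧) = X ^ (4 * w) * (A : ℚ⟦X⟧)
  hB : xp (b : ℚ⟦X⟧) = X ^ (6 * w) * (B : ℚ⟦X⟧)
  a0 : a ≠ 0
  b0 : b ≠ 0
  D0 : De a b ≠ 0
  nc : ∀ c : ℂ, cp a ^ 3 ≠ Polynomial.C c * cp b ^ 2
  A0 : A ≠ 0
  B0 : B ≠ 0
  DA0 : (De A B).eval 0 ≠ 0

/-- the membership of the values at one point -/
lemma one_pt {K : IntermediateField ℚ ℂ} {V : Submodule K ℂ} (h1 : (1 : ℂ) ∈ V) {A B D : ℂ} (hAK : A ∈ K) (hBK : B ∈ K)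
    (hDK : D ∈ K) (hA : A ≠ 0) (hB : B ≠ 0) (hD : D ≠ 0) {z j1 j2 φ φN ψN : ℂ} (hφ : φ ≠ 0)
    (e1 : D * j1 = -31104 * (A ^ 2 * B * φ ^ 2))
    (e2 : D * j2 = -5184 * (A * φ ^ 3 * (-3 * (A * B * φN) - 18 * (B ^ 2 * φ) + 2 * (A ^ 3 * φ))))
    (e3 : φ * ψN - φN * (z * φ) = -4) (hz : z ∈ V) (hj1 : j1 ∈ V) (hj2 : j2 ∈ V) (hφV : φ ∈ V)
    {p q r s : ℤ} {F0 N0 G0 M0 : ℂ} (hF0 : F0 ∈ V) (hN0 : N0 ∈ V) (hG0 : G0 ∈ V) (hM0 : M0 ∈ V) (hdet : F0 * M0 - N0 * G0 = -4)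
    {y00 y10 y01 y11 : ℂ} (hF : F0 * y00 + N0 * y10 = -(r : ℂ) * (z * φ) + p * φ) (hN : F0 * y01 + N0 * y11 = -(r : ℂ) * ψN + p * φN)
    (hG : G0 * y00 + M0 * y10 = (s : ℂ) * (z * φ) - q * φ) (hM : G0 * y01 + M0 * y11 = (s : ℂ) * ψN - q * φN) :
    j1 ≠ 0 ∧ φ * j1 ∈ V ^ 5 ∧ φ * j1 * y00 ∈ V ^ 5 ∧ φ * j1 * y10 ∈ V ^ 5 ∧ φ * j1 * y01 ∈ V ^ 5 := by
  obtain ⟨k0, k1, k2, k3, k4, k5⟩ := alg_pt h1 hAK hBK hDK hA hB hD hφ e1 e2 e3 hz hj1 hj2 hφV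
  have V1 : ∀ {x : ℂ}, x ∈ V → x ∈ V ^ 1 := fun h => by rwa [pow_one]
  have m1 : ∀ (u : ℤ) {x : ℂ} {n : ℕ}, x ∈ V ^ n → (u : ℂ) * x ∈ V ^ n := fun u x n hx => by
    have := mQ (K := K) (W := V ^ n) (u : ℚ) hx
    push_cast at this
    exact this
  -- the numbers `ρ F`, `ρ G`, `ρ N`, `ρ M`
  have rF : φ * j1 * (F0 * y00 + N0 * y10) ∈ V ^ 4 := by
    rw [hF]
    have e : φ * j1 * (-(r : ℂ) * (z * φ) + p * φ) = ((-r : ℤ) : ℂ) * (φ * j1 * (z * φ)) + (p : ℂ) * (φ * j1 * φ) := by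
      push_cast
      ring
    rw [e]
    exact Submodule.add_mem _ (m1 _ k3) (m1 _ k2)
  have rG : φ * j1 * (G0 * y00 + M0 * y10) ∈ V ^ 4 := by
    rw [hG]
    have e : φ * j1 * ((s : ℂ) * (z * φ) - q * φ) = (s : ℂ) * (φ * j1 * (z * φ)) + ((-q : ℤ) : ℂ) * (φ * j1 * φ) := by
      push_cast
      ring
    rw [e]
    exact Submodule.add_mem _ (m1 _ k3) (m1 _ k2)
  have rN : φ * j1 * (F0 * y01 + N0 * y11) ∈ V ^ 4 := by
    rw [hN]
    have e : φ * j1 * (-(r : ℂ) * ψN + p * φN) = ((-r : ℤ) : ℂ) * (φ * j1 * ψN) + (p : ℂ) * (φ * j1 * φN) := by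
      push_cast
      ring
    rw [e]
    exact Submodule.add_mem _ (m1 _ k5) (m1 _ k4)
  have rM : φ * j1 * (G0 * y01 + M0 * y11) ∈ V ^ 4 := by
    rw [hM]
    have e : φ * j1 * ((s : ℂ) * ψN - q * φN) = (s : ℂ) * (φ * j1 * ψN) + ((-q : ℤ) : ℂ) * (φ * j1 * φN) := by
      push_cast
      ring
    rw [e]
    exact Submodule.add_mem _ (m1 _ k5) (m1 _ k4)
  have mq : ∀ {x : ℂ} {n : ℕ}, x ∈ V ^ n → (1 / 4 : ℂ) * x ∈ V ^ n := fun {x n} hx => by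
    have := mQ (K := K) (W := V ^ n) (1 / 4 : ℚ) hx
    push_cast at this
    exact this
  refine ⟨k0, pow_mem_mono h1 (by norm_num) k1, ?_, ?_, ?_⟩
  · have e : φ * j1 * y00 = (1 / 4 : ℂ) * (N0 * (φ * j1 * (G0 * y00 + M0 * y10)) - M0 * (φ * j1 * (F0 * y00 + N0 * y10))) := by
      linear_combination ((1 / 4 : ℂ) * (φ * j1 * y00)) * hdet
    rw [e]
    exact mq (Submodule.sub_mem _ (pow_mem_add (a := 1) (b := 4) (V1 hN0) rG) (pow_mem_add (a := 1) (b := 4) (V1 hM0) rF))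
  · have e : φ * j1 * y10 = (1 / 4 : ℂ) * (G0 * (φ * j1 * (F0 * y00 + N0 * y10)) - F0 * (φ * j1 * (G0 * y00 + M0 * y10))) := by
      linear_combination ((1 / 4 : ℂ) * (φ * j1 * y10)) * hdet
    rw [e]
    exact mq (Submodule.sub_mem _ (pow_mem_add (a := 1) (b := 4) (V1 hG0) rF) (pow_mem_add (a := 1) (b := 4) (V1 hF0) rG))
  · have e : φ * j1 * y01 = (1 / 4 : ℂ) * (N0 * (φ * j1 * (G0 * y01 + M0 * y11)) - M0 * (φ * j1 * (F0 * y01 + N0 * y11))) := by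
      linear_combination ((1 / 4 : ℂ) * (φ * j1 * y01)) * hdet
    rw [e]
    exact mq (Submodule.sub_mem _ (pow_mem_add (a := 1) (b := 4) (V1 hN0) rM) (pow_mem_add (a := 1) (b := 4) (V1 hM0) rN))

/-- **The main theorem**, in terms of shifts -/
theorem main {a b A B : Polynomial ℚ} {w : ℕ} (h : Fam a b A B w) (z0 : UpperHalfPlane)
    (hz0 : pv (De A B) 0 * jj z0 = 1728 * (4 * pv A 0 ^ 3)) (s : ℕ) (ω : Fin s → ℂ)
    (hω : ∀ i, IsAlgebraic (Algebra.adjoin ℚ (Set.range ω)) (cen z0 i)) :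
    ∃ G0 : ℕ, ∀ k δ D : ℕ, ∃ E : ℕ, ∀ H t : ℕ, (H + 2) ^ E ≤ t → ∀ g : Fin k → ℕ, SepR G0 g → (∀ l, g l ≤ H) →
      ∀ z : Fin k → UpperHalfPlane, (∀ l, pv (De a b) (1 / ((t - g l : ℕ) : ℝ)) * jj (z l) =
        1728 * (4 * pv a (1 / ((t - g l : ℕ) : ℝ)) ^ 3)) →
        ∀ (K : IntermediateField ℚ ℂ) [FiniteDimensional ℚ K], finrank ℚ K ≤ D →
          ∃ σ : Fin (k * 3) → (Fin k × Fin 3) ⊕ Fin s, Function.Injective σ ∧
            LIb K δ (fun i => Sum.elim (fun v : Fin k × Fin 3 => jt (z v.1) v.2) ω (σ i)) := by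
  classical
  obtain ⟨L, S, hS, hLN, hLS⟩ := ld_good w h.hA h.hB h.A0 h.DA0
  obtain ⟨R0, hbase⟩ := base_X3 L h.a0 h.b0 h.D0 h.nc hLN
  obtain ⟨R, hR, hY⟩ := rad fun i j => good_sol h.A0 h.DA0 hS i j
  have ev0 : ∀ P : Polynomial ℚ, pv P 0 = ((P.eval 0 : ℚ) : ℂ) := by
    intro P
    unfold pv cp
    rw [Complex.ofReal_zero, Polynomial.eval_map, Polynomial.eval₂_at_zero, ← Polynomial.coeff_zero_eq_eval_zero]
    rfl
  have hD0 : pv (De A B) 0 ≠ 0 := by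
    rw [ev0]
    exact_mod_cast h.DA0
  obtain ⟨F0, N0, hF0, c2, c4, c6, hcen⟩ := central (A0 := A.eval 0) (B0 := B.eval 0) (D0 := (De A B).eval 0) (eval_De A B 0) h.DA0 z0 (by
    rw [← ev0, ← ev0]
    exact hz0)
  rw [← ev0] at c4 c6
  have hev := all_pts hS hR hY hD0 z0 F0 N0 hF0 c2 c4 c6
  obtain ⟨v1, hv1, hv1'⟩ := no_roots_q h.A0
  obtain ⟨v2, hv2, hv2'⟩ := no_roots_q h.B0
  have hev2 : ∀ᶠ x in 𝓝 (0 : ℝ), x < v1 ∧ x < v2 ∧ |x| < 1 / R ∧ pv (De A B) x ≠ 0 :=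
    (eventually_lt_nhds hv1).and ((eventually_lt_nhds hv2).and ((ev_small hR).and ((pv_cont _ 0).eventually_ne hD0)))
  obtain ⟨ε, hε, hball⟩ := Metric.eventually_nhds_iff.1 (hev.and hev2)
  obtain ⟨c₂, hc₂⟩ := Pool.Agent.Y678.HG.exists_two_pow ((1 / ε) ^ 12 + 1)
  have hΩ := hcen s ω hω
  set Ω : Fin 4 → ℂ := ![F0, N0, z0 * F0, z0 * N0 - 4 / F0] with hΩd
  choose aa mm ll κκ hl0 hrel hmem using fun p => alg_rel ω (hΩ p)
  refine ⟨R0, fun k δ D => ?_⟩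
  choose Ψ₁ hΨ₁ using fun c e : ℕ => gr_algs2 c e (Finset.univ.sup aa) (Finset.univ.sup fun p => mm p + 1) (Fintype.card (Fin 4))
  choose Ψ₂ hΨ₂ using fun c e : ℕ => gr_algs2 c e 1 2 k
  obtain ⟨N₁, hN₁⟩ := Pool.Agent.Y124.TH.core_abs (k * 3) δ (D * 12 ^ k) 0 (5 * k) (k * 3 + s) (fun c e => Ψ₂ (Ψ₁ c e) e)
  obtain ⟨E, hE⟩ := hbase N₁ k
  refine ⟨E + (c₂ + 1), ?_⟩
  intro H t hHt g hg hgH z hz K _ hK
  -- the points
  have hlt : ∀ l, (1 / ε) ^ 12 < ((t - g l : ℕ) : ℝ) ∧ 0 < ((t - g l : ℕ) : ℝ) := by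
    intro l
    have h5 := Pool.Agent.Y113.GG.sub_large (c := c₂) (by omega : c₂ + 1 ≤ E + (c₂ + 1)) hHt (hgH l)
    have h6 : (2 : ℝ) ^ c₂ ≤ ((t - g l : ℕ) : ℝ) := by exact_mod_cast h5
    have h7 : (1 / ε) ^ 12 + 1 ≤ ((t - g l : ℕ) : ℝ) := hc₂.trans h6
    have h8 : 0 < (1 / ε) ^ 12 := by positivity
    exact ⟨by linarith, by linarith⟩
  have hxe : ∀ l, ∃ x : ℝ, 0 < x ∧ x < ε ∧ x ^ 12 = 1 / ((t - g l : ℕ) : ℝ) := by
    intro l
    obtain ⟨h1, h2⟩ := hlt l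
    refine ⟨(1 / ((t - g l : ℕ) : ℝ)) ^ ((1 : ℝ) / 12), by positivity, ?_, ?_⟩
    · have h3 : (1 / ((t - g l : ℕ) : ℝ)) < ε ^ 12 := by
        rw [div_lt_iff₀ h2]
        rw [one_div, inv_pow, inv_lt_iff_one_lt_mul₀ (by positivity)] at h1
        linarith
      have h4 : (1 / ((t - g l : ℕ) : ℝ)) ^ ((1 : ℝ) / 12) < (ε ^ 12) ^ ((1 : ℝ) / 12) :=
        Real.rpow_lt_rpow (by positivity) h3 (by norm_num)
      have h5 : (ε ^ 12 : ℝ) ^ ((1 : ℝ) / 12) = ε := by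
        rw [← Real.rpow_natCast, ← Real.rpow_mul hε.le]
        norm_num
      rwa [h5] at h4
    · rw [← Real.rpow_natCast, ← Real.rpow_mul (by positivity)]
      norm_num
  choose x hx0 hxε hx12 using hxe
  have hdist : ∀ l, dist (x l) 0 < ε := by
    intro l
    rw [Real.dist_0_eq_abs, abs_of_pos (hx0 l)]
    exact hxε l
  -- the field
  obtain ⟨K', hfd, hKK', hK', hxK⟩ := roots_field K hK (fun l => (x l : ℂ)) (fun l => 1 / ((t - g l : ℕ) : ℚ)) (fun l => by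
    rw [← Complex.ofReal_pow, hx12]
    push_cast
    rfl)
  -- the invariants
  have hzx : ∀ l, pv (De A B) (x l) * jj (z l) = 1728 * (4 * pv A (x l) ^ 3) := by
    intro l
    have h1 := hz l
    have hxne : (x l : ℂ) ≠ 0 := by exact_mod_cast (hx0 l).ne'
    rw [← hx12 l, pv_xp h.hA] at h1
    have h2 : pv (De a b) (x l ^ 12) = (x l : ℂ) ^ (12 * w) * pv (De A B) (x l) := by
      rw [pv_De, pv_De, pv_xp h.hA, pv_xp h.hB]
      ring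
    rw [h2] at h1
    apply mul_left_cancel₀ (pow_ne_zero (12 * w) hxne)
    have h3 : ((x l : ℂ) ^ (4 * w) * pv A (x l)) ^ 3 = (x l : ℂ) ^ (12 * w) * pv A (x l) ^ 3 := by ring
    rw [h3] at h1
    linear_combination h1
  have hAl : ∀ l, pv A (x l) ≠ 0 := fun l => hv1' _ (hx0 l) (hball (hdist l)).2.1
  have hBl : ∀ l, pv B (x l) ≠ 0 := fun l => hv2' _ (hx0 l) (hball (hdist l)).2.2.1
  have hRl : ∀ l, |x l| < 1 / R := fun l => (hball (hdist l)).2.2.2.1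
  have hDl : ∀ l, pv (De A B) (x l) ≠ 0 := fun l => (hball (hdist l)).2.2.2.2
  choose γ φ φN ψN hφ e1 e2 e3 f1 f2 f3 f4 using fun l => (hball (hdist l)).1 (z l) (hzx l)
  have hcard1 : Fintype.card (Fin k × Fin 3) = k * 3 := by
    rw [Fintype.card_prod, Fintype.card_fin, Fintype.card_fin]
  have hcard2 : Fintype.card ((Fin k × Fin 3) ⊕ Fin s) = k * 3 + s := by
    rw [Fintype.card_sum, hcard1, Fintype.card_fin]
  have hHt' : (H + 2) ^ E ≤ t := (Nat.pow_le_pow_right (by omega) (by omega)).trans hHt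
  obtain ⟨σ, hσ, hσL⟩ := hN₁ K' hK' _ hcard2 (Sum.elim (fun v : Fin k × Fin 3 => jt (z v.1) v.2) ω) _ hcard1
    (fun i => X3 L t (g i.1) i.2) (fun c e W₁ h1 hzW hGR => by
    have hjW : ∀ l i, jt (z l) i ∈ W₁ := fun l i => hzW (Sum.inl (l, i))
    have hωW : ∀ i, ω i ∈ W₁ := fun i => hzW (Sum.inr i)
    obtain ⟨V₁, hV₁, hΩV, hG₁⟩ := hΨ₁ c e K' W₁ h1 hGR (Fin 4) rfl Ω (fun p => by
      obtain ⟨h2, h3⟩ := hmem p K' W₁ h1 hωW
      have hle : aa p ≤ Finset.univ.sup aa := Finset.le_sup (Finset.mem_univ p)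
      exact ⟨mm p, ll p, κκ p, Finset.le_sup (f := fun p => mm p + 1) (Finset.mem_univ p), hl0 p, pow_mem_mono h1 hle h2,
        fun j => pow_mem_mono h1 hle (h3 j), hrel p⟩)
    have h11 : (1 : ℂ) ∈ V₁ := hV₁ h1
    obtain ⟨V', hV', hφV, hG'⟩ := hΨ₂ (Ψ₁ c e) e K' V₁ h11 hG₁ (Fin k) (Fintype.card_fin k) φ (fun l => by
      have hAK := pv_mem (K := K') A (hxK l)
      have hBK := pv_mem (K := K') B (hxK l)
      have hDK := pv_mem (K := K') (De A B) (hxK l)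
      have k3 : (31104 : ℂ) ∈ K' := by exact_mod_cast SubfieldClass.ratCast_mem K' 31104
      have hq : -(pv (De A B) (x l) / (31104 * (pv A (x l) ^ 2 * pv B (x l)))) ∈ K' :=
        K'.neg_mem (K'.div_mem hDK (K'.mul_mem k3 (K'.mul_mem (pow_mem hAK 2) hBK)))
      refine ⟨1, 1, fun j => if j = 0 then -(pv (De A B) (x l) / (31104 * (pv A (x l) ^ 2 * pv B (x l)))) * deriv jj (z l) else 0,
        le_rfl, one_ne_zero, ?_, fun j => ?_, ?_⟩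
      · rw [pow_one]
        exact h11
      · dsimp only
        split_ifs
        · rw [pow_one]
          exact mK hq (hV₁ (hjW l 1))
        · exact Submodule.zero_mem _
      · rw [Finset.sum_range_succ, Finset.sum_range_one]
        dsimp only
        rw [if_pos rfl, if_neg one_ne_zero]
        have hA' := hAl l
        have hB' := hBl l
        have h4 := e1 l
        field_simp
        linear_combination (1 : ℂ) * h4)
    have h12 : (1 : ℂ) ∈ V' := hV' h11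
    have hΩV' : ∀ p, Ω p ∈ V' := fun p => hV' (hΩV p)
    have hjV : ∀ l i, jt (z l) i ∈ V' := fun l i => hV' (hV₁ (hjW l i))
    -- the values
    have hval : ∀ l i j, yv L i j (1 / ((t - g l : ℕ) : ℂ)) = (x l : ℂ) ^ ex w ![w, 11 * w] i j * zz S i j (x l) := by
      intro l i j
      have h4 : (1 / ((t - g l : ℕ) : ℂ)) = (x l : ℂ) ^ 12 := by
        rw [← Complex.ofReal_pow, hx12]
        push_cast
        rfl
      rw [h4]
      exact inn_ex (hLS i j) hR (hY i j) (hRl l)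
    have hpt : ∀ l, deriv jj (z l) ≠ 0 ∧ φ l * deriv jj (z l) ∈ V' ^ 5 ∧ φ l * deriv jj (z l) * zz S 0 0 (x l) ∈ V' ^ 5 ∧
        φ l * deriv jj (z l) * zz S 1 0 (x l) ∈ V' ^ 5 ∧ φ l * deriv jj (z l) * zz S 0 1 (x l) ∈ V' ^ 5 := fun l =>
      one_pt h12 (pv_mem (K := K') A (hxK l)) (pv_mem (K := K') B (hxK l)) (pv_mem (K := K') (De A B) (hxK l)) (hAl l) (hBl l) (hDl l)
        (hφ l) (e1 l) (e2 l) (e3 l) (hjV l 0) (hjV l 1) (hjV l 2) (hφV l) (hΩV' 0) (hΩV' 1) (hΩV' 2) (hΩV' 3) (by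
          show F0 * (z0 * N0 - 4 / F0) - N0 * (z0 * F0) = -4
          field_simp
          ring) (f1 l) (f2 l) (f3 l) (f4 l)
    have hcom := Pool.Agent.Y124.TH.common (W := V') (d := 5) (fun l => φ l * deriv jj (z l)) (fun l o => X3 L t (g l) o)
      (fun l => (hpt l).2.1) (fun l o => by
        have m1 : ∀ i j, φ l * deriv jj (z l) * zz S i j (x l) ∈ V' ^ 5 →
            φ l * deriv jj (z l) * yv L i j (1 / ((t - g l : ℕ) : ℂ)) ∈ V' ^ 5 := by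
          intro i j hij
          rw [hval]
          have e : φ l * deriv jj (z l) * ((x l : ℂ) ^ ex w ![w, 11 * w] i j * zz S i j (x l)) =
              (x l : ℂ) ^ ex w ![w, 11 * w] i j * (φ l * deriv jj (z l) * zz S i j (x l)) := by ring
          rw [e]
          exact mK (pow_mem (hxK l) _) hij
        fin_cases o
        · exact m1 0 0 (hpt l).2.2.1
        · exact m1 1 0 (hpt l).2.2.2.1
        · exact m1 0 1 (hpt l).2.2.2.2)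
    exact ⟨V', ∏ l, (φ l * deriv jj (z l)), h12, hG', Finset.prod_ne_zero_iff.2 fun l _ => mul_ne_zero (hφ l) (hpt l).1,
      hcom.1, fun i => hcom.2 i.1 i.2⟩) (hE H t hHt' g hg hgH)
  exact ⟨σ, hσ, LIb.down hKK' hσL⟩

end Pool.Agent.T44.MS
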