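import Pool.Agent.T44.MS.Main

/-!
# The family of elliptic curves with a given invariant
-/

set_option autoImplicit false

open Pool.Agent.Y124.GE Pool.Agent.Y120.GH PowerSeries Filter Topology Module
open Pool.Agent.Y124.TD Pool.Agent.Y124.TG Pool.Agent.Y113

namespace Pool.Agent.T44.MS

/-- the coefficients of the family with the invariant `P / Q` -/
noncomputable def fa (P Q : Polynomial ℚ) : Polynomial ℚ := -(3 * (P * (P - 1728 * Q) * Q ^ 2))

/-- the coefficients of the family with the invariant `P / Q` -/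
noncomputable def fb (P Q : Polynomial ℚ) : Polynomial ℚ := 2 * (P * (P - 1728 * Q) ^ 2 * Q ^ 3)

lemma C4 : (Polynomial.C (4 : ℚ) : Polynomial ℚ) = 4 := map_ofNat _ 4

lemma C27 : (Polynomial.C (27 : ℚ) : Polynomial ℚ) = 27 := map_ofNat _ 27

lemma C1728 : (Polynomial.C (1728 : ℚ) : Polynomial ℚ) = 1728 := map_ofNat _ 1728

lemma De_fab (P Q : Polynomial ℚ) : De (fa P Q) (fb P Q) = -(186624 * (P ^ 2 * (P - 1728 * Q) ^ 3 * Q ^ 7)) := by
  unfold De fa fb
  ring

lemma inv_fab (P Q : Polynomial ℚ) : P * De (fa P Q) (fb P Q) = 1728 * (4 * fa P Q ^ 3) * Q := by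
  rw [De_fab, fa]
  ring

section
variable {P Q : Polynomial ℚ} (hQ : Q ≠ 0) (hnc : ∀ c : ℚ, P ≠ Polynomial.C c * Q)
include hQ hnc

omit hQ in
lemma P_ne : P ≠ 0 := by
  have := hnc 0
  rwa [map_zero, zero_mul] at this

omit hQ in
lemma R_ne : P - 1728 * Q ≠ 0 := by
  have := hnc 1728
  rw [C1728] at this
  exact sub_ne_zero.2 this

lemma fa_ne : fa P Q ≠ 0 :=
  neg_ne_zero.2 (mul_ne_zero (by norm_num) (mul_ne_zero (mul_ne_zero (P_ne hnc) (R_ne hnc)) (pow_ne_zero _ hQ)))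

lemma fb_ne : fb P Q ≠ 0 :=
  mul_ne_zero (by norm_num) (mul_ne_zero (mul_ne_zero (P_ne hnc) (pow_ne_zero _ (R_ne hnc))) (pow_ne_zero _ hQ))

lemma De_ne : De (fa P Q) (fb P Q) ≠ 0 := by
  rw [De_fab]
  exact neg_ne_zero.2 (mul_ne_zero (by norm_num) (mul_ne_zero (mul_ne_zero (pow_ne_zero _ (P_ne hnc)) (pow_ne_zero _ (R_ne hnc)))
    (pow_ne_zero _ hQ)))

lemma fab_nc : ∀ c : ℂ, cp (fa P Q) ^ 3 ≠ Polynomial.C c * cp (fb P Q) ^ 2 := by
  refine nc_C (fb_ne hQ hnc) fun c hc => ?_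
  have h1 : (P ^ 2 * (P - 1728 * Q) ^ 3 * Q ^ 6) * (27 * P + 4 * Polynomial.C c * (P - 1728 * Q)) = 0 := by
    unfold fa fb at hc
    linear_combination (-1 : Polynomial ℚ) * hc
  have h2 := (mul_eq_zero.1 h1).resolve_left (mul_ne_zero (mul_ne_zero (pow_ne_zero _ (P_ne hnc)) (pow_ne_zero _ (R_ne hnc)))
    (pow_ne_zero _ hQ))
  by_cases hc0 : 27 + 4 * c = 0
  · have h3 : Polynomial.C (4 * c * 1728) * Q = 0 := by
      have h4 : Polynomial.C (27 + 4 * c) * P - Polynomial.C (4 * c * 1728) * Q = 0 := by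
        rw [← h2]
        simp only [map_add, map_mul, C4, C27, C1728]
        ring
      rw [hc0, map_zero, zero_mul, zero_sub, neg_eq_zero] at h4
      exact h4
    have h5 : c ≠ 0 := by
      rintro rfl
      norm_num at hc0
    have h6 : (4 * c * 1728 : ℚ) ≠ 0 := by
      exact mul_ne_zero (mul_ne_zero (by norm_num) h5) (by norm_num)
    exact hQ ((mul_eq_zero.1 h3).resolve_left (Polynomial.C_ne_zero.2 h6))
  · apply hnc (4 * c * 1728 / (27 + 4 * c))
    have h4 : Polynomial.C (27 + 4 * c) * P = Polynomial.C (4 * c * 1728) * Q := by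
      have h5 : Polynomial.C (27 + 4 * c) * P - Polynomial.C (4 * c * 1728) * Q = 0 := by
        rw [← h2]
        simp only [map_add, map_mul, C4, C27, C1728]
        ring
      exact sub_eq_zero.1 h5
    have h6 : Polynomial.C (27 + 4 * c) * P = Polynomial.C (27 + 4 * c) * (Polynomial.C (4 * c * 1728 / (27 + 4 * c)) * Q) := by
      rw [h4, ← mul_assoc, ← map_mul, mul_div_cancel₀ _ hc0]
    exact mul_left_cancel₀ (Polynomial.C_ne_zero.2 hc0) h6

end

/-- **The smooth model** -/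
theorem fam {P Q : Polynomial ℚ} (hQ0 : Q.eval 0 ≠ 0) (hnc : ∀ c : ℚ, P ≠ Polynomial.C c * Q) :
    ∃ (A B : Polynomial ℚ) (w : ℕ), Fam (fa P Q) (fb P Q) A B w ∧
      P.eval 0 * (De A B).eval 0 = 1728 * (4 * A.eval 0 ^ 3) * Q.eval 0 := by
  have hQ : Q ≠ 0 := by
    rintro rfl
    simp at hQ0
  have ha := fa_ne hQ hnc
  have hb := fb_ne hQ hnc
  obtain ⟨va, a1, ha1, ha10⟩ := exists_D1 ha
  obtain ⟨vb, b1, hb1, hb10⟩ := exists_D1 hb
  set a := fa P Q with had
  set b := fb P Q with hbd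
  set w := min (3 * va) (2 * vb) with hw
  have hwa : 4 * w ≤ 12 * va := by
    have := min_le_left (3 * va) (2 * vb)
    omega
  have hwb : 6 * w ≤ 12 * vb := by
    have := min_le_right (3 * va) (2 * vb)
    omega
  set A : Polynomial ℚ := Polynomial.X ^ (12 * va - 4 * w) * Polynomial.expand ℚ 12 a1 with hAd
  set B : Polynomial ℚ := Polynomial.X ^ (12 * vb - 6 * w) * Polynomial.expand ℚ 12 b1 with hBd
  have hA : xp (a : ℚ⟦X⟧) = X ^ (4 * w) * (A : ℚ⟦X⟧) := by
    rw [xp_coe, ha1, map_mul, map_pow, Polynomial.expand_X, hAd]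
    simp only [Polynomial.coe_mul, Polynomial.coe_pow, Polynomial.coe_X]
    rw [← mul_assoc, ← pow_add, ← pow_mul]
    congr 2
    omega
  have hB : xp (b : ℚ⟦X⟧) = X ^ (6 * w) * (B : ℚ⟦X⟧) := by
    rw [xp_coe, hb1, map_mul, map_pow, Polynomial.expand_X, hBd]
    simp only [Polynomial.coe_mul, Polynomial.coe_pow, Polynomial.coe_X]
    rw [← mul_assoc, ← pow_add, ← pow_mul]
    congr 2
    omega
  have ev : ∀ p : Polynomial ℚ, (Polynomial.expand ℚ 12 p).eval 0 = p.eval 0 := by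
    intro p
    rw [Polynomial.expand_eval]
    norm_num
  have ha1ne : a1 ≠ 0 := by
    rintro rfl
    simp at ha10
  have hb1ne : b1 ≠ 0 := by
    rintro rfl
    simp at hb10
  have hA0 : A ≠ 0 := mul_ne_zero (pow_ne_zero _ Polynomial.X_ne_zero) ((Polynomial.expand_ne_zero (by norm_num)).2 ha1ne)
  have hB0 : B ≠ 0 := mul_ne_zero (pow_ne_zero _ Polynomial.X_ne_zero) ((Polynomial.expand_ne_zero (by norm_num)).2 hb1ne)
  -- the invariant of the model
  have hinv : xp (P : ℚ⟦X⟧) * (De A B : ℚ⟦X⟧) = 1728 * (4 * (A : ℚ⟦X⟧) ^ 3) * xp (Q : ℚ⟦X⟧) := by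
    have h1 : (P : ℚ⟦X⟧) * (De a b : ℚ⟦X⟧) = 1728 * (4 * (a : ℚ⟦X⟧) ^ 3) * (Q : ℚ⟦X⟧) := by
      have h2 := congrArg (fun f : Polynomial ℚ => (f : ℚ⟦X⟧)) (inv_fab P Q)
      have h4 : ((4 : Polynomial ℚ) : ℚ⟦X⟧) = 4 := map_ofNat (Polynomial.coeToPowerSeries.ringHom (R := ℚ)) 4
      have h1728 : ((1728 : Polynomial ℚ) : ℚ⟦X⟧) = 1728 := map_ofNat (Polynomial.coeToPowerSeries.ringHom (R := ℚ)) 1728
      simp only [Polynomial.coe_mul, Polynomial.coe_pow, h4, h1728] at h2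
      exact h2
    have h3 := congrArg xp h1
    rw [map_mul, map_mul, map_mul, map_mul, map_pow, xp_De hA hB, hA, map_ofNat, map_ofNat] at h3
    apply mul_left_cancel₀ (pow_ne_zero (12 * w) (X_ne_zero (R := ℚ)))
    linear_combination h3
  have cc : ∀ p : Polynomial ℚ, constantCoeff (p : ℚ⟦X⟧) = p.eval 0 := fun p => by
    rw [Polynomial.constantCoeff_coe, Polynomial.coeff_zero_eq_eval_zero]
  have cx' : ∀ p : Polynomial ℚ, constantCoeff (xp (p : ℚ⟦X⟧)) = p.eval 0 := fun p => by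
    rw [xp_coe, cc, ev]
  have hconst : P.eval 0 * (De A B).eval 0 = 1728 * (4 * A.eval 0 ^ 3) * Q.eval 0 := by
    have h4 := congrArg constantCoeff hinv
    have k1 : (1728 : ℚ⟦X⟧) = PowerSeries.C 1728 := (map_ofNat _ _).symm
    have k2 : (4 : ℚ⟦X⟧) = PowerSeries.C 4 := (map_ofNat _ _).symm
    rw [k1, k2] at h4
    simp only [map_mul, map_pow, constantCoeff_C, cc, cx'] at h4
    exact h4
  have hDA0 : (De A B).eval 0 ≠ 0 := by
    intro hc
    rw [hc, mul_zero] at hconst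
    have h5 : A.eval 0 = 0 := by
      have h6 := (mul_eq_zero.1 hconst.symm).resolve_right hQ0
      have h7 : A.eval 0 ^ 3 = 0 := by linarith
      exact pow_eq_zero_iff (by norm_num) |>.1 h7
    have h6 : B.eval 0 = 0 := by
      rw [eval_De, h5] at hc
      have h7 : B.eval 0 ^ 2 = 0 := by linarith
      exact pow_eq_zero_iff (by norm_num) |>.1 h7
    rcases min_choice (3 * va) (2 * vb) with h3 | h3
    · have h7 : 12 * va - 4 * w = 0 := by omega
      rw [hAd, h7, pow_zero, one_mul, ev] at h5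
      exact ha10 h5
    · have h7 : 12 * vb - 6 * w = 0 := by omega
      rw [hBd, h7, pow_zero, one_mul, ev] at h6
      exact hb10 h6
  exact ⟨A, B, w, ⟨hA, hB, ha, hb, De_ne hQ hnc, fab_nc hQ hnc, hA0, hB0, hDA0⟩, hconst⟩

end Pool.Agent.T44.MS
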