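import Pool.Agent.Y949.J.RamT

/-!
# Ramanujan's equations on the upper half-plane and the first two derivatives of `j`
-/

set_option autoImplicit false

open UpperHalfPlane ModularForm EisensteinSeries Filter Topology
open Pool.Agent.TH21.MS (E4 E6 jj E4_eq E6_eq disc_ne jj_an)
open scoped Manifold

namespace Pool.Agent.T44.MS

/-- the number `2πi` -/
noncomputable def tp : ℂ := 2 * (Real.pi : ℂ) * Complex.I

lemma tp_ne : tp ≠ 0 := by
  have h1 : (Real.pi : ℂ) ≠ 0 := by exact_mod_cast Real.pi_ne_zero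
  exact mul_ne_zero (mul_ne_zero two_ne_zero h1) Complex.I_ne_zero

/-- the Eisenstein series of weight two as a function on `ℂ` -/
noncomputable def e2 (z : ℂ) : ℂ := (EisensteinSeries.E2 ∘ ofComplex) z

lemma hd {f : ℍ → ℂ} (hf : MDiff f) (z : ℍ) :
    HasDerivAt (f ∘ ofComplex) (tp * Derivative.normalizedDerivOfComplex f z) (z : ℂ) := by
  have h0 := UpperHalfPlane.mdifferentiable_iff.1 hf
  have hopen : IsOpen {z : ℂ | 0 < z.im} := isOpen_upperHalfPlaneSet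
  have hmem : (z : ℂ) ∈ {z : ℂ | 0 < z.im} := z.im_pos
  have h1 : HasDerivAt (f ∘ ofComplex) (deriv (f ∘ ofComplex) (z : ℂ)) (z : ℂ) :=
    (h0.differentiableAt (hopen.mem_nhds hmem)).hasDerivAt
  refine h1.congr_deriv ?_
  unfold Derivative.normalizedDerivOfComplex
  show _ = tp * ((2 * (Real.pi : ℂ) * Complex.I)⁻¹ * _)
  rw [show (2 * (Real.pi : ℂ) * Complex.I)⁻¹ = tp⁻¹ from rfl, mul_inv_cancel_left₀ tp_ne]

lemma ev_im (z : ℍ) : ∀ᶠ w : ℂ in 𝓝 (z : ℂ), 0 < w.im :=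
  isOpen_upperHalfPlaneSet.mem_nhds z.im_pos

lemma e2_at (z : ℍ) : e2 z = EisensteinSeries.E2 z := by
  unfold e2
  rw [Function.comp_apply, ofComplex_apply]

lemma ofC {w : ℂ} (hw : 0 < w.im) : ofComplex w = ⟨w, hw⟩ := ofComplex_apply_of_im_pos hw

theorem de2 (z : ℍ) : HasDerivAt e2 (tp * ((e2 z ^ 2 - E4 z) / 12)) (z : ℂ) := by
  have h1 := hd E2_mdifferentiable z
  rw [Pool.Agent.Y949.J.t_RAM2 z, ← E4_eq, ← e2_at] at h1
  refine h1.congr_deriv ?_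
  ring

theorem de4 (z : ℍ) : HasDerivAt E4 (tp * ((e2 z * E4 z - E6 z) / 3)) (z : ℂ) := by
  have h1 := hd (f := fun w => E₄ w) (ModularFormClass.holo _) z
  rw [(Pool.Agent.Y949.J.t_RAM46 z).1, ← E4_eq, ← E6_eq, ← e2_at] at h1
  have h2 : E4 =ᶠ[𝓝 (z : ℂ)] ((fun w : ℍ => (E₄ w : ℂ)) ∘ ofComplex) := by
    filter_upwards [ev_im z] with w hw
    rw [Function.comp_apply, ofC hw, ← E4_eq]
  refine (h1.congr_of_eventuallyEq h2).congr_deriv ?_
  ring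

theorem de6 (z : ℍ) : HasDerivAt E6 (tp * ((e2 z * E6 z - E4 z ^ 2) / 2)) (z : ℂ) := by
  have h1 := hd (f := fun w => E₆ w) (ModularFormClass.holo _) z
  rw [(Pool.Agent.Y949.J.t_RAM46 z).2, ← E4_eq, ← E6_eq, ← e2_at] at h1
  have h2 : E6 =ᶠ[𝓝 (z : ℂ)] ((fun w : ℍ => (E₆ w : ℂ)) ∘ ofComplex) := by
    filter_upwards [ev_im z] with w hw
    rw [Function.comp_apply, ofC hw, ← E6_eq]
  refine (h1.congr_of_eventuallyEq h2).congr_deriv ?_
  ring

theorem djj (z : ℍ) : HasDerivAt jj (-1728 * tp * (E4 z ^ 2 * E6 z / (E4 z ^ 3 - E6 z ^ 2))) (z : ℂ) := by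
  have h := disc_ne z
  have h1 := ((de4 z).pow 3).const_mul (1728 : ℂ)
  have h2 := ((de4 z).pow 3).sub ((de6 z).pow 2)
  have h3 := h1.div h2 h
  have h4 : jj = (fun y => 1728 * (E4 ^ 3) y) / (E4 ^ 3 - E6 ^ 2) := by
    funext w
    rfl
  rw [h4]
  refine h3.congr_deriv ?_
  simp only [Pi.pow_apply, Pi.sub_apply]
  field_simp
  ring

theorem djj_eq (z : ℍ) : deriv jj z = -1728 * tp * (E4 z ^ 2 * E6 z / (E4 z ^ 3 - E6 z ^ 2)) := (djj z).deriv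

theorem ddjj (z : ℍ) : deriv (deriv jj) z = -1728 * tp ^ 2 *
    ((1 / 6 * (e2 z * E4 z ^ 2 * E6 z) - 2 / 3 * (E4 z * E6 z ^ 2) - 1 / 2 * E4 z ^ 4) / (E4 z ^ 3 - E6 z ^ 2)) := by
  have h := disc_ne z
  have h1 := (((de4 z).pow 2).mul (de6 z)).div (((de4 z).pow 3).sub ((de6 z).pow 2)) h
  have h2 := h1.const_mul (-1728 * tp)
  have h3 : deriv jj =ᶠ[𝓝 (z : ℂ)] (fun y => -1728 * tp * ((E4 ^ 2 * E6) / (E4 ^ 3 - E6 ^ 2)) y) := by
    filter_upwards [ev_im z] with w hw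
    exact djj_eq ⟨w, hw⟩
  have h4 := (h2.congr_of_eventuallyEq h3).deriv
  rw [h4]
  simp only [Pi.pow_apply, Pi.sub_apply, Pi.mul_apply]
  field_simp
  ring

end Pool.Agent.T44.MS
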