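import Pool.Agent.T44.MS.Mod
import Pool.Agent.Y124.GE.Good
import Pool.Agent.Y124.GE.An

/-!
# The periods of a family of elliptic curves with smooth central fibre and the Eisenstein series
-/

set_option autoImplicit false

open Pool.Agent.Y124.GE Pool.Agent.Y120.GH PowerSeries Filter Topology
open UpperHalfPlane (ofComplex)
open Pool.Agent.TH21.MS (E4 E6 jj disc_ne)

namespace Pool.Agent.T44.MS

/-! ### values of power series -/

lemma inn_zero (f : PowerSeries ℂ) : inn f 0 = constantCoeff f := by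
  unfold inn
  rw [tsum_eq_single 0]
  · simp
  · intro m hm
    rw [zero_pow hm, mul_zero]

lemma norm_inv {R : ℝ} (hR : 1 ≤ R) {u : ℂ} (hu0 : u ≠ 0) (hu : ‖u‖ < 1 / R) : R < ‖(1 / u : ℂ)‖ := by
  rw [norm_div, norm_one, lt_div_iff₀ (norm_pos_iff.2 hu0), mul_comm]
  rwa [lt_div_iff₀ (by linarith)] at hu

lemma inn_mul {R : ℝ} (hR : 1 ≤ R) {f g : PowerSeries ℂ} (hf : f ∈ Cw R) (hg : g ∈ Cw R) {u : ℂ} (hu : ‖u‖ < 1 / R) :
    inn (f * g) u = inn f u * inn g u := by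
  by_cases h0 : u = 0
  · subst h0
    rw [inn_zero, inn_zero, inn_zero, map_mul]
  · rw [inn_eq_ou, inn_eq_ou, inn_eq_ou, ou_mul (by linarith) hf hg (norm_inv hR h0 hu)]

lemma inn_add {R : ℝ} (hR : 1 ≤ R) {f g : PowerSeries ℂ} (hf : f ∈ Cw R) (hg : g ∈ Cw R) {u : ℂ} (hu : ‖u‖ < 1 / R) :
    inn (f + g) u = inn f u + inn g u := by
  by_cases h0 : u = 0
  · subst h0
    rw [inn_zero, inn_zero, inn_zero, map_add]
  · rw [inn_eq_ou, inn_eq_ou, inn_eq_ou, ou_add (by linarith) hf hg (norm_inv hR h0 hu)]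

lemma inn_poly (P : Polynomial ℂ) (u : ℂ) : inn (P : PowerSeries ℂ) u = P.eval u := by
  unfold inn
  rw [Polynomial.eval_eq_sum_range, tsum_eq_sum (s := Finset.range (P.natDegree + 1))]
  · refine Finset.sum_congr rfl fun m _ => ?_
    rw [Polynomial.coeff_coe]
  · intro m hm
    rw [Finset.mem_range, not_lt] at hm
    rw [Polynomial.coeff_coe, Polynomial.coeff_eq_zero_of_natDegree_lt (by omega), zero_mul]

section
variable {a b : Polynomial ℚ} {Z : Fin 2 → Fin 2 → ℚ⟦X⟧}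

/-- the values of the solutions -/
noncomputable def zz (Z : Fin 2 → Fin 2 → ℚ⟦X⟧) (i j : Fin 2) (x : ℝ) : ℂ := inn (cx (Z i j)) (x : ℂ)

/-- the value of a polynomial -/
noncomputable def pv (P : Polynomial ℚ) (x : ℝ) : ℂ := (cp P).eval (x : ℂ)

lemma zz_ode (hZ : Sol a b Z) {R : ℝ} (hR : 1 ≤ R) (hY : ∀ i j, cx (Z i j) ∈ Cw R) {x : ℝ} (hx : |x| < 1 / R) (i j : Fin 2) :
    pv (De a b) x * inn (PowerSeries.derivative ℂ (cx (Z i j))) x = ∑ k, zz Z i k x * pv (AE a b k j) x := by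
  have hu : ‖(x : ℂ)‖ < 1 / R := by rwa [Complex.norm_real]
  have h1 := congrArg (fun F => inn (cx F) (x : ℂ)) (hZ.2 i j)
  simp only [map_mul, cx_der, cx_poly, Fin.sum_univ_two, map_add] at h1
  have hd : PowerSeries.derivative ℂ (cx (Z i j)) ∈ Cw R := cxd_mem hR (hY i j)
  rw [inn_mul hR (poly_mem _) hd hu, inn_poly,
    inn_add hR ((Cw R).mul_mem (hY i 0) (poly_mem _)) ((Cw R).mul_mem (hY i 1) (poly_mem _)) hu,
    inn_mul hR (hY i 0) (poly_mem _) hu, inn_mul hR (hY i 1) (poly_mem _) hu, inn_poly, inn_poly] at h1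
  rw [Fin.sum_univ_two]
  exact h1

lemma zz_deriv (hZ : Sol a b Z) {R : ℝ} (hR : 1 ≤ R) (hY : ∀ i j, cx (Z i j) ∈ Cw R) {x : ℝ} (hx : |x| < 1 / R)
    (hD : pv (De a b) x ≠ 0) (i j : Fin 2) :
    HasDerivAt (zz Z i j) ((∑ k, zz Z i k x * pv (AE a b k j) x) / pv (De a b) x) x := by
  have hu : ‖(x : ℂ)‖ < 1 / R := by rwa [Complex.norm_real]
  have h1 := (inn_hasDerivAt hR (hY i j) hu).1.comp_ofReal
  refine h1.congr_deriv ?_
  rw [eq_div_iff hD, ← zz_ode hZ hR hY hx i j, mul_comm]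

lemma pv_deriv (P : Polynomial ℚ) (x : ℝ) : HasDerivAt (pv P) (pv (Polynomial.derivative P) x) x := by
  have h := ((cp P).hasDerivAt (x : ℂ)).comp_ofReal
  refine h.congr_deriv ?_
  unfold pv cp
  rw [Polynomial.derivative_map]

lemma pv_De (x : ℝ) : pv (De a b) x = 4 * pv a x ^ 3 + 27 * pv b x ^ 2 := by
  unfold pv cp De
  simp

lemma pv_AE00 (x : ℝ) : pv (AE a b 0 0) x =
    -(pv a x ^ 2 * pv (Polynomial.derivative a) x + 9 / 2 * (pv b x * pv (Polynomial.derivative b) x)) := by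
  show pv (-(Polynomial.C (1 / 12) * Polynomial.derivative (De a b))) x = _
  rw [derivative_De]
  unfold pv cp
  simp
  ring

lemma pv_AE11 (x : ℝ) : pv (AE a b 1 1) x =
    pv a x ^ 2 * pv (Polynomial.derivative a) x + 9 / 2 * (pv b x * pv (Polynomial.derivative b) x) := by
  show pv (Polynomial.C (1 / 12) * Polynomial.derivative (De a b)) x = _
  rw [derivative_De]
  unfold pv cp
  simp
  try ring

lemma pv_AE01 (x : ℝ) : pv (AE a b 0 1) x =
    -(1 / 2) * pv a x * (2 * pv a x * pv (Polynomial.derivative b) x - 3 * pv (Polynomial.derivative a) x * pv b x) := by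
  show pv (-(Polynomial.C (1 / 2) * (a * Wr a b))) x = _
  unfold pv cp Wr
  simp
  try ring

lemma pv_AE10 (x : ℝ) : pv (AE a b 1 0) x =
    -(3 / 2) * (2 * pv a x * pv (Polynomial.derivative b) x - 3 * pv (Polynomial.derivative a) x * pv b x) := by
  show pv (-(Polynomial.C (3 / 2) * Wr a b)) x = _
  unfold pv cp Wr
  simp
  try ring

/-- a combination of the rows of the solution -/
noncomputable def rw' (Z : Fin 2 → Fin 2 → ℚ⟦X⟧) (α β : ℂ) (j : Fin 2) (x : ℝ) : ℂ := α * zz Z 0 j x + β * zz Z 1 j x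

lemma rw_zero (hZ : Sol a b Z) (α β : ℂ) : rw' Z α β 0 0 = α ∧ rw' Z α β 1 0 = β := by
  have h : ∀ i j, zz Z i j 0 = if i = j then 1 else 0 := by
    intro i j
    unfold zz
    rw [Complex.ofReal_zero, inn_zero]
    have h1 := hZ.1 i j
    have h2 : constantCoeff (cx (Z i j)) = ((constantCoeff (Z i j) : ℚ) : ℂ) := rfl
    rw [h2, h1]
    split_ifs <;> simp
  constructor
  · unfold rw'
    rw [h, h]
    simp
  · unfold rw'
    rw [h, h]
    simp

lemma rw_deriv (hZ : Sol a b Z) {R : ℝ} (hR : 1 ≤ R) (hY : ∀ i j, cx (Z i j) ∈ Cw R) {x : ℝ} (hx : |x| < 1 / R)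
    (hD : pv (De a b) x ≠ 0) (α β : ℂ) (j : Fin 2) :
    HasDerivAt (rw' Z α β j) ((rw' Z α β 0 x * pv (AE a b 0 j) x + rw' Z α β 1 x * pv (AE a b 1 j) x) / pv (De a b) x) x := by
  have h0 := (zz_deriv hZ hR hY hx hD 0 j).const_mul α
  have h1 := (zz_deriv hZ hR hY hx hD 1 j).const_mul β
  refine (h0.add h1).congr_deriv ?_
  rw [Fin.sum_univ_two, Fin.sum_univ_two]
  unfold rw'
  ring

end

end Pool.Agent.T44.MS
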