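import Pool.Agent.T44.MS.Cur
import Pool.Agent.T44.JI.Inj
import Pool.Agent.Y508.J.Mob
import Pool.Agent.Y124.TH.Ca

/-!
# The derivatives of `j` at all points with a given invariant near a smooth fibre
-/

set_option autoImplicit false

open Pool.Agent.Y124.GE Pool.Agent.Y120.GH PowerSeries Filter Topology
open UpperHalfPlane (ofComplex)
open Pool.Agent.TH21.MS (E4 E6 jj disc_ne)
open Pool.Agent.Y124.TD Pool.Agent.Y124.TG

namespace Pool.Agent.T44.MS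

/-- the values of `j`, `j'`, `j''` -/
lemma jj_vals {w : UpperHalfPlane} {A B D F N : ℂ} (hF : F ≠ 0) (hD : D ≠ 0) (hDe : D = 4 * A ^ 3 + 27 * B ^ 2)
    (h2 : tp * e2 w = -3 * (F * N)) (h4 : tp ^ 2 * E4 w = -3 * (A * F ^ 4)) (h6 : tp ^ 3 * E6 w = -(27 / 2) * (B * F ^ 6)) :
    D * jj w = 1728 * (4 * A ^ 3) ∧ D * deriv jj w = -31104 * (A ^ 2 * B * F ^ 2) ∧
      D * deriv (deriv jj) w = -5184 * (A * F ^ 3 * (-3 * (A * B * N) - 18 * (B ^ 2 * F) + 2 * (A ^ 3 * F))) := by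
  have t1 := tp_ne
  have e2' : e2 w = -3 * (F * N) / tp := by rw [eq_div_iff t1, ← h2]; ring
  have e4' : E4 w = -3 * (A * F ^ 4) / tp ^ 2 := by rw [eq_div_iff (pow_ne_zero _ t1), ← h4]; ring
  have e6' : E6 w = -(27 / 2) * (B * F ^ 6) / tp ^ 3 := by rw [eq_div_iff (pow_ne_zero _ t1), ← h6]; ring
  have hΔ : E4 w ^ 3 - E6 w ^ 2 = -(27 / 4) * (F ^ 12 * D) / tp ^ 6 := by
    rw [e4', e6', hDe]
    field_simp
    ring
  refine ⟨?_, ?_, ?_⟩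
  · have h : jj w = 1728 * E4 w ^ 3 / (E4 w ^ 3 - E6 w ^ 2) := rfl
    rw [h, hΔ, e4']
    field_simp
    ring
  · rw [djj_eq, hΔ, e4', e6']
    field_simp
    ring
  · rw [ddjj, hΔ, e2', e4', e6']
    field_simp
    ring

variable {a b : Polynomial ℚ} {Z : Fin 2 → Fin 2 → ℚ⟦X⟧}

/-- **All points with a given invariant** -/
theorem all_pts (hZ : Sol a b Z) {R : ℝ} (hR : 1 ≤ R) (hY : ∀ i j, cx (Z i j) ∈ Cw R) (hD : pv (De a b) 0 ≠ 0)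
    (z0 : UpperHalfPlane) (F0 N0 : ℂ) (hF0 : F0 ≠ 0) (h2 : tp * e2 z0 = -3 * (F0 * N0))
    (h4 : tp ^ 2 * E4 z0 = -3 * (pv a 0 * F0 ^ 4)) (h6 : tp ^ 3 * E6 z0 = -(27 / 2) * (pv b 0 * F0 ^ 6)) :
    ∀ᶠ x in 𝓝 (0 : ℝ), ∀ z : UpperHalfPlane, pv (De a b) x * jj z = 1728 * (4 * pv a x ^ 3) →
      ∃ (γ : Matrix.SpecialLinearGroup (Fin 2) ℤ) (φ φN ψN : ℂ), φ ≠ 0 ∧
        pv (De a b) x * deriv jj z = -31104 * (pv a x ^ 2 * pv b x * φ ^ 2) ∧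
        pv (De a b) x * deriv (deriv jj) z = -5184 * (pv a x * φ ^ 3 * (-3 * (pv a x * pv b x * φN) - 18 * (pv b x ^ 2 * φ) +
          2 * (pv a x ^ 3 * φ))) ∧
        φ * ψN - φN * (z * φ) = -4 ∧
        rw' Z F0 N0 0 x = -(γ 1 0 : ℂ) * (z * φ) + γ 0 0 * φ ∧ rw' Z F0 N0 1 x = -(γ 1 0 : ℂ) * ψN + γ 0 0 * φN ∧
        rw' Z (z0 * F0) (z0 * N0 - 4 / F0) 0 x = (γ 1 1 : ℂ) * (z * φ) - γ 0 1 * φ ∧
        rw' Z (z0 * F0) (z0 * N0 - 4 / F0) 1 x = (γ 1 1 : ℂ) * ψN - γ 0 1 * φN := by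
  filter_upwards [curve hZ hR hY hD z0 F0 N0 hF0 h2 h4 h6] with x hx
  intro z hz
  obtain ⟨w, k1, k2, k3, k4, k5, k6, k7⟩ := hx
  set F := rw' Z F0 N0 0 x
  set N := rw' Z F0 N0 1 x
  set G := rw' Z (z0 * F0) (z0 * N0 - 4 / F0) 0 x
  set M := rw' Z (z0 * F0) (z0 * N0 - 4 / F0) 1 x
  obtain ⟨v1, v2, v3⟩ := jj_vals k2 k1 (pv_De x) k5 k6 k7
  have hjw : jj z = jj w := mul_left_cancel₀ k1 (hz.trans v1.symm)
  obtain ⟨γ, hγ⟩ := Pool.Agent.T44.JI.j_inj z w hjw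
  obtain ⟨-, m1, m2, m3, m4⟩ := Pool.Agent.Y508.J.t_mob γ w
  rw [← hγ] at m1 m2 m3
  have hdet : (γ 0 0 : ℂ) * γ 1 1 - γ 0 1 * γ 1 0 = 1 := by
    have h := γ.det_coe
    rw [Matrix.det_fin_two] at h
    exact_mod_cast h
  set α : ℂ := (γ 0 0 : ℂ)
  set β : ℂ := (γ 0 1 : ℂ)
  set c : ℂ := (γ 1 0 : ℂ)
  set d : ℂ := (γ 1 1 : ℂ)
  have hφ : c * G + d * F = (c * w + d) * F := by rw [← k3]; ring
  have hzφ : (z : ℂ) * (c * G + d * F) = α * G + β * F := by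
    calc (z : ℂ) * (c * G + d * F) = (α * w + β) / (c * w + d) * (c * w + d) * F := by
          rw [hφ, m3]
          ring
      _ = (α * w + β) * F := by rw [div_mul_cancel₀ _ m4]
      _ = α * G + β * F := by
          rw [← k3]
          ring
  refine ⟨γ, c * G + d * F, c * M + d * N, α * M + β * N, ?_, ?_, ?_, ?_, ?_, ?_, ?_, ?_⟩
  · rw [hφ]
    exact mul_ne_zero m4 k2
  · rw [m1, hφ]
    linear_combination (c * w + d) ^ 2 * v2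
  · rw [m2, hφ]
    have hM : F * (c * M + d * N) = (c * w + d) * F * N - 4 * c := by
      linear_combination c * k4 - c * N * k3
    have e1 : pv a x * ((c * w + d) * F) ^ 3 * (-3 * (pv a x * pv b x * (c * M + d * N)) - 18 * (pv b x ^ 2 * ((c * w + d) * F)) +
        2 * (pv a x ^ 3 * ((c * w + d) * F))) = (c * w + d) ^ 4 * (pv a x * F ^ 3 * (-3 * (pv a x * pv b x * N) -
          18 * (pv b x ^ 2 * F) + 2 * (pv a x ^ 3 * F))) + 12 * c * (c * w + d) ^ 3 * (pv a x ^ 2 * pv b x * F ^ 2) := by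
      linear_combination (-3 * pv a x ^ 2 * pv b x * (c * w + d) ^ 3 * F ^ 2) * hM
    rw [e1]
    linear_combination (c * w + d) ^ 4 * v3 + 2 * c * (c * w + d) ^ 3 * v2
  · rw [hzφ]
    linear_combination (α * d - β * c) * k4 - 4 * hdet
  · rw [hzφ]
    linear_combination (-F) * hdet
  · linear_combination (-N) * hdet
  · rw [hzφ]
    linear_combination (-G) * hdet
  · linear_combination (-M) * hdet

/-! ### membership -/

lemma mK {K : IntermediateField ℚ ℂ} {W : Submodule K ℂ} {q : ℂ} (hq : q ∈ K) {x : ℂ} (hx : x ∈ W) : q * x ∈ W := by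
  have h2 : q * x = (⟨q, hq⟩ : K) • x := by
    rw [Algebra.smul_def]
    rfl
  rw [h2]
  exact Submodule.smul_mem _ _ hx

lemma alg_pt {K : IntermediateField ℚ ℂ} {V : Submodule K ℂ} (h1 : (1 : ℂ) ∈ V) {A B D : ℂ} (hAK : A ∈ K) (hBK : B ∈ K)
    (hDK : D ∈ K) (hA : A ≠ 0) (hB : B ≠ 0) (hD : D ≠ 0) {z j1 j2 φ φN ψN : ℂ} (hφ : φ ≠ 0)
    (e1 : D * j1 = -31104 * (A ^ 2 * B * φ ^ 2))
    (e2 : D * j2 = -5184 * (A * φ ^ 3 * (-3 * (A * B * φN) - 18 * (B ^ 2 * φ) + 2 * (A ^ 3 * φ))))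
    (e3 : φ * ψN - φN * (z * φ) = -4) (hz : z ∈ V) (hj1 : j1 ∈ V) (hj2 : j2 ∈ V) (hφV : φ ∈ V) :
    j1 ≠ 0 ∧ φ * j1 ∈ V ^ 4 ∧ φ * j1 * φ ∈ V ^ 4 ∧ φ * j1 * (z * φ) ∈ V ^ 4 ∧ φ * j1 * φN ∈ V ^ 4 ∧ φ * j1 * ψN ∈ V ^ 4 := by
  have hj0 : j1 ≠ 0 := by
    intro h0
    rw [h0, mul_zero] at e1
    exact mul_ne_zero (by norm_num : (-31104 : ℂ) ≠ 0) (mul_ne_zero (mul_ne_zero (pow_ne_zero 2 hA) hB) (pow_ne_zero 2 hφ)) e1.symm
  have V1 : ∀ {x : ℂ}, x ∈ V → x ∈ V ^ 1 := fun h => by rwa [pow_one]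
  have k1 : φ * j1 ∈ V ^ 2 := pow_mem_add (a := 1) (b := 1) (V1 hφV) (V1 hj1)
  have hj1' : j1 = -31104 * (A ^ 2 * B * φ ^ 2) / D := by rw [eq_div_iff hD, ← e1]; ring
  have hj2' : j2 = -5184 * (A * φ ^ 3 * (-3 * (A * B * φN) - 18 * (B ^ 2 * φ) + 2 * (A ^ 3 * φ))) / D := by
    rw [eq_div_iff hD, ← e2]; ring
  have hN : φ * j1 * φN = (-2) * j2 + (-((A ^ 3 - 9 * B ^ 2) * D / (46656 * A ^ 3 * B ^ 2))) * (j1 * j1) := by
    rw [hj1', hj2']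
    field_simp
    ring
  have hq : ∀ q : ℚ, (q : ℂ) ∈ K := fun q => SubfieldClass.ratCast_mem K q
  have h2K : (-2 : ℂ) ∈ K := by
    have := hq (-2)
    push_cast at this
    exact this
  have hcK : (-((A ^ 3 - 9 * B ^ 2) * D / (46656 * A ^ 3 * B ^ 2))) ∈ K := by
    have k9 : (9 : ℂ) ∈ K := by exact_mod_cast hq 9
    have k4 : (46656 : ℂ) ∈ K := by exact_mod_cast hq 46656
    exact K.neg_mem (K.div_mem (K.mul_mem (K.sub_mem (pow_mem hAK 3) (K.mul_mem k9 (pow_mem hBK 2))) hDK)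
      (K.mul_mem (K.mul_mem k4 (pow_mem hAK 3)) (pow_mem hBK 2)))
  have kN : φ * j1 * φN ∈ V ^ 2 := by
    rw [hN]
    refine Submodule.add_mem _ (mK h2K (pow_mem_mono h1 (by norm_num : 1 ≤ 2) (V1 hj2))) (mK hcK ?_)
    exact pow_mem_add (a := 1) (b := 1) (V1 hj1) (V1 hj1)
  have kφ : φ * j1 * φ ∈ V ^ 3 := pow_mem_add (a := 2) (b := 1) k1 (V1 hφV)
  refine ⟨hj0, pow_mem_mono h1 (by norm_num) k1, pow_mem_mono h1 (by norm_num) kφ, ?_, pow_mem_mono h1 (by norm_num) kN, ?_⟩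
  · have e : φ * j1 * (z * φ) = z * (φ * j1 * φ) := by ring
    rw [e]
    exact pow_mem_add (a := 1) (b := 3) (V1 hz) kφ
  · have e : φ * j1 * ψN = (-4) * j1 + z * (φ * j1 * φN) := by linear_combination j1 * e3
    rw [e]
    have k4 : (-4 : ℂ) ∈ K := by
      have := hq (-4)
      push_cast at this
      exact this
    exact Submodule.add_mem _ (mK k4 (pow_mem_mono h1 (by norm_num : 1 ≤ 4) (V1 hj1)))
      (pow_mem_mono h1 (by norm_num : 1 + 2 ≤ 4) (pow_mem_add (a := 1) (b := 2) (V1 hz) kN))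

end Pool.Agent.T44.MS
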