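import Pool.Agent.T44.MS.Mdl
import Pool.Agent.Y988.J.FD

/-!
# The points `i` and `ρ`
-/

set_option autoImplicit false

open UpperHalfPlane ModularForm EisensteinSeries Filter Topology
open Pool.Agent.TH21.MS (E4 E6 jj E4_eq E6_eq disc_ne)
open scoped MatrixGroups

namespace Pool.Agent.T44.MS

lemma den_eq (γ : SL(2, ℤ)) (z : ℍ) : denom (Matrix.SpecialLinearGroup.mapGL ℝ γ) z = (γ 1 0 : ℂ) * z + γ 1 1 := by
  simp [denom]

lemma den_eq' (γ : SL(2, ℤ)) (z : ℍ) : denom (Matrix.SpecialLinearGroup.toGL ((Matrix.SpecialLinearGroup.map (Int.castRingHom ℝ)) γ)) z =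
    (γ 1 0 : ℂ) * z + γ 1 1 := by
  simp [denom]

lemma e2_mob (γ : SL(2, ℤ)) (z : ℍ) : tp * e2 ((γ • z : ℍ) : ℂ) =
    ((γ 1 0 : ℂ) * z + γ 1 1) ^ 2 * (tp * e2 z) + 12 * (γ 1 0 : ℂ) * ((γ 1 0 : ℂ) * z + γ 1 1) := by
  have h := congrFun (E2_slash_action γ) z
  rw [SL_slash_apply, Pi.sub_apply, Pi.smul_apply] at h
  unfold D2 at h
  rw [riemannZeta_two, smul_eq_mul, den_eq', ← e2_at, ← e2_at] at h
  have hd : (γ 1 0 : ℂ) * z + γ 1 1 ≠ 0 := by
    rw [← den_eq]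
    exact denom_ne_zero _ z
  have hpi : (Real.pi : ℂ) ≠ 0 := by exact_mod_cast Real.pi_ne_zero
  have hI : Complex.I * Complex.I = -1 := Complex.I_mul_I
  set d : ℂ := (γ 1 0 : ℂ) * z + γ 1 1
  have h2 : e2 ((γ • z : ℍ) : ℂ) = d ^ 2 * (e2 z - 1 / (2 * ((Real.pi : ℂ) ^ 2 / 6)) * (2 * Real.pi * Complex.I * (γ 1 0 : ℂ) / d)) := by
    rw [← h]
    rw [show (-(2 : ℤ)) = -((2 : ℕ) : ℤ) from rfl, zpow_neg, zpow_natCast]
    field_simp
  rw [h2]
  unfold tp
  field_simp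
  linear_combination (-(12 : ℂ) * (γ 1 0 : ℂ)) * hI

lemma E4_mob (γ : SL(2, ℤ)) (z : ℍ) : E4 ((γ • z : ℍ) : ℂ) = ((γ 1 0 : ℂ) * z + γ 1 1) ^ 4 * E4 z := by
  rw [E4_eq, E4_eq, Pool.Agent.Y988.J.inv4, den_eq]

lemma E6_mob (γ : SL(2, ℤ)) (z : ℍ) : E6 ((γ • z : ℍ) : ℂ) = ((γ 1 0 : ℂ) * z + γ 1 1) ^ 6 * E6 z := by
  rw [E6_eq, E6_eq, Pool.Agent.Y988.J.inv6, den_eq]

/-! ### the point `i` -/

lemma S_I : ModularGroup.S • UpperHalfPlane.I = UpperHalfPlane.I := by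
  apply UpperHalfPlane.ext
  rw [UpperHalfPlane.coe_specialLinearGroup_apply]
  simp [ModularGroup.S]

lemma E6_I : E6 Complex.I = 0 := by
  have h := E6_mob ModularGroup.S UpperHalfPlane.I
  rw [S_I] at h
  simp [ModularGroup.S] at h
  have h7 : 2 * E6 Complex.I = 0 := by linear_combination h
  exact (mul_eq_zero.1 h7).resolve_left two_ne_zero

lemma e2_I : tp * e2 Complex.I = 6 * Complex.I := by
  have h := e2_mob ModularGroup.S UpperHalfPlane.I
  rw [S_I] at h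
  simp [ModularGroup.S] at h
  linear_combination (1 / 2 : ℂ) * h

lemma disc_I : E4 Complex.I ^ 3 - E6 Complex.I ^ 2 ≠ 0 := disc_ne UpperHalfPlane.I

lemma E4_I : E4 Complex.I ≠ 0 := by
  intro h0
  apply disc_I
  rw [h0, E6_I]
  norm_num

lemma jj_I : jj Complex.I = 1728 := by
  have h : jj Complex.I = 1728 * E4 Complex.I ^ 3 / (E4 Complex.I ^ 3 - E6 Complex.I ^ 2) := rfl
  have h1 := E4_I
  rw [h, E6_I]
  field_simp
  norm_num

lemma ddjj_I : deriv (deriv jj) Complex.I = 864 * (tp ^ 2 * E4 Complex.I) := by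
  have h : deriv (deriv jj) Complex.I = _ := ddjj UpperHalfPlane.I
  rw [h]
  have h1 := E4_I
  simp only [UpperHalfPlane.coe_I]
  rw [E6_I]
  field_simp
  ring

/-! ### the point `ρ` -/

/-- the point `ρ = (-1 + √3 i) / 2` -/
noncomputable def rho : ℍ := ⟨⟨-1 / 2, Real.sqrt 3 / 2⟩, by
  have : 0 < Real.sqrt 3 := Real.sqrt_pos.2 (by norm_num)
  show 0 < Real.sqrt 3 / 2
  positivity⟩

lemma rho_eq : (rho : ℂ) ^ 2 + rho + 1 = 0 := by
  have h3 : Real.sqrt 3 * Real.sqrt 3 = 3 := Real.mul_self_sqrt (by norm_num)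
  have hre : (rho : ℂ).re = -1 / 2 := rfl
  have him : (rho : ℂ).im = Real.sqrt 3 / 2 := rfl
  apply Complex.ext
  · simp only [pow_two, Complex.add_re, Complex.mul_re, Complex.one_re, Complex.zero_re, hre, him]
    nlinarith
  · simp only [pow_two, Complex.add_im, Complex.mul_im, Complex.one_im, Complex.zero_im, hre, him]
    ring

/-- the matrix which fixes `ρ` -/
def gR : SL(2, ℤ) := ⟨!![0, -1; 1, 1], by rw [Matrix.det_fin_two_of]; norm_num⟩

lemma rho1 : (rho : ℂ) + 1 ≠ 0 := by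
  intro h0
  have h1 := rho_eq
  have h2 : (rho : ℂ) = -1 := by linear_combination h0
  rw [h2] at h1
  norm_num at h1

lemma gR_rho : gR • rho = rho := by
  apply UpperHalfPlane.ext
  rw [UpperHalfPlane.coe_specialLinearGroup_apply]
  have h := rho1
  simp only [gR, Matrix.SpecialLinearGroup.coe_mk, Matrix.of_apply, Matrix.cons_val_zero, Matrix.cons_val_one, Matrix.cons_val',
    Matrix.cons_val_fin_one, algebraMap_int_eq, eq_intCast]
  push_cast
  rw [div_eq_iff (by rw [one_mul]; exact h)]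
  linear_combination (-1 : ℂ) * rho_eq

lemma gR10 : (gR 1 0 : ℂ) = 1 := by simp [gR]

lemma gR11 : (gR 1 1 : ℂ) = 1 := by simp [gR]

lemma E4_rho : E4 rho = 0 := by
  have h := E4_mob gR rho
  rw [gR_rho, gR10, gR11, one_mul] at h
  have h1 := rho_eq
  have h2 : ((rho : ℂ) + 1) ^ 4 = (rho : ℂ) ^ 2 := by
    have h3 : (rho : ℂ) + 1 = -(rho : ℂ) ^ 2 := by linear_combination h1
    rw [h3]
    linear_combination ((rho : ℂ) ^ 6 - (rho : ℂ) ^ 5 + (rho : ℂ) ^ 3 - (rho : ℂ) ^ 2) * h1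
  rw [h2] at h
  have h4 : (1 - (rho : ℂ) ^ 2) * E4 rho = 0 := by linear_combination h
  refine (mul_eq_zero.1 h4).resolve_left fun h5 => ?_
  have h6 : (rho : ℂ) = -2 := by linear_combination h1 + h5
  rw [h6] at h5
  norm_num at h5

lemma jj_rho : jj rho = 0 := by
  have h : jj rho = 1728 * E4 rho ^ 3 / (E4 rho ^ 3 - E6 rho ^ 2) := rfl
  rw [h, E4_rho]
  simp

lemma e2_rho : tp * e2 rho * (1 - (rho : ℂ)) = -12 * (rho : ℂ) ^ 2 := by
  have h := e2_mob gR rho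
  rw [gR_rho, gR10, gR11, one_mul] at h
  have h1 := rho_eq
  linear_combination h + (tp * e2 rho + 12) * h1

/-- algebraic numbers -/
lemma alg_up {s : ℕ} (ω : Fin s → ℂ) {x : ℂ} (h : IsAlgebraic ℚ x) : IsAlgebraic (Algebra.adjoin ℚ (Set.range ω)) x :=
  h.extendScalars (FaithfulSMul.algebraMap_injective ℚ (Algebra.adjoin ℚ (Set.range ω)))

lemma alg_self {s : ℕ} (ω : Fin s → ℂ) (i : Fin s) : IsAlgebraic (Algebra.adjoin ℚ (Set.range ω)) (ω i) :=
  isAlgebraic_algebraMap (⟨ω i, Algebra.subset_adjoin ⟨i, rfl⟩⟩ : Algebra.adjoin ℚ (Set.range ω))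

lemma alg_I : IsAlgebraic ℚ Complex.I := by
  refine ⟨Polynomial.X ^ 2 + 1, ?_, by simp⟩
  exact (Polynomial.monic_X_pow_add_C (1 : ℚ) (n := 2) (by norm_num)).ne_zero

lemma alg_rho : IsAlgebraic ℚ (rho : ℂ) := by
  refine ⟨Polynomial.X ^ 2 + Polynomial.X + 1, ?_, ?_⟩
  · intro h
    have := congrArg (Polynomial.eval 0) h
    simp at this
  · have := rho_eq
    simpa using this

/-- the central numbers at `i` -/
lemma cen_I (i : Fin 4) : IsAlgebraic (Algebra.adjoin ℚ (Set.range fun _ : Fin 1 => deriv (deriv jj) Complex.I)) (cen Complex.I i) := by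
  fin_cases i
  · exact alg_up _ alg_I
  · show IsAlgebraic _ (tp * e2 Complex.I)
    have h : tp * e2 Complex.I = ((6 : ℚ) : ℂ) * Complex.I := by
      rw [e2_I]
      push_cast
      ring
    rw [h]
    exact (alg_int _ 6).mul (alg_up _ alg_I)
  · show IsAlgebraic _ (tp ^ 2 * E4 Complex.I)
    have h : tp ^ 2 * E4 Complex.I = ((1 / 864 : ℚ) : ℂ) * deriv (deriv jj) Complex.I := by
      rw [ddjj_I]
      push_cast
      ring
    rw [h]
    exact (alg_int _ _).mul (alg_self (fun _ : Fin 1 => deriv (deriv jj) Complex.I) 0)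
  · show IsAlgebraic _ (tp ^ 3 * E6 Complex.I)
    rw [E6_I, mul_zero]
    exact isAlgebraic_zero

/-- the central numbers at `ρ` -/
lemma cen_rho (i : Fin 4) : IsAlgebraic (Algebra.adjoin ℚ (Set.range fun _ : Fin 1 => tp ^ 3 * E6 rho)) (cen rho i) := by
  fin_cases i
  · exact alg_up _ alg_rho
  · show IsAlgebraic _ (tp * e2 rho)
    have h1 : (1 : ℂ) - rho ≠ 0 := by
      intro h0
      have h2 := rho_eq
      have h3 : (rho : ℂ) = 1 := by linear_combination -h0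
      rw [h3] at h2
      norm_num at h2
    have h : tp * e2 rho = ((-12 : ℚ) : ℂ) * (rho : ℂ) ^ 2 * (((1 : ℚ) : ℂ) - rho)⁻¹ := by
      push_cast
      rw [← div_eq_mul_inv, eq_div_iff h1]
      exact e2_rho
    rw [h]
    have hr := alg_up (fun _ : Fin 1 => tp ^ 3 * E6 rho) alg_rho
    exact ((alg_int _ _).mul (hr.pow 2)).mul ((alg_int _ _).sub hr).inv
  · show IsAlgebraic _ (tp ^ 2 * E4 rho)
    rw [E4_rho, mul_zero]
    exact isAlgebraic_zero
  · exact alg_self (fun _ : Fin 1 => tp ^ 3 * E6 rho) 0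

end Pool.Agent.T44.MS
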