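import Pool.Agent.T44.MS.Spc

/-!
# All tuples in short windows
-/

set_option autoImplicit false

open Pool.Agent.Y124.GE Pool.Agent.Y120.GH PowerSeries Filter Topology Module
open Pool.Agent.Y124.TD Pool.Agent.Y124.TG Pool.Agent.Y113
open Pool.Agent.TH21.MS (E4 E6 jj disc_ne)

namespace Pool.Agent.T44.MS

/-- the value of the rational function `P / Q` at `1 / n` -/
noncomputable def val (P Q : Polynomial ℚ) (n : ℕ) : ℂ := ((P.eval (1 / (n : ℚ)) / Q.eval (1 / (n : ℚ)) : ℚ) : ℂ)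

lemma pv_rat (P : Polynomial ℚ) (q : ℚ) : pv P (q : ℝ) = ((P.eval q : ℚ) : ℂ) := by
  unfold pv cp
  have h : (((q : ℝ) : ℂ)) = algebraMap ℚ ℂ q := by simp
  rw [h, Polynomial.eval_map, Polynomial.eval₂_at_apply]
  simp

/-- the tuple lies in the window `[N, N + H]` -/
def InW {ι : Type} (N : ℕ) (H : ℝ) (G : ℕ) (n : ι → ℕ) : Prop :=
  (∀ l, N ≤ n l ∧ (n l : ℝ) ≤ N + H) ∧ ∀ l l', l ≠ l' → n l + G ≤ n l' ∨ n l' + G ≤ n l

theorem win {P Q : Polynomial ℚ} (hQ0 : Q.eval 0 ≠ 0) (hnc : ∀ c : ℚ, P ≠ Polynomial.C c * Q) (z0 : UpperHalfPlane)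
    (hz0 : jj z0 = ((P.eval 0 / Q.eval 0 : ℚ) : ℂ)) (s : ℕ) (ω : Fin s → ℂ)
    (hω : ∀ i, IsAlgebraic (Algebra.adjoin ℚ (Set.range ω)) (cen z0 i)) :
    ∃ G : ℕ, ∀ k δ D : ℕ, ∃ (c : ℝ) (N₀ : ℕ), 0 < c ∧ ∀ N : ℕ, N₀ ≤ N → ∀ n : Fin k → ℕ, InW N ((N : ℝ) ^ c) G n →
      ∀ z : Fin k → UpperHalfPlane, (∀ l, jj (z l) = val P Q (n l)) →
        ∀ (K : IntermediateField ℚ ℂ) [FiniteDimensional ℚ K], finrank ℚ K ≤ D →
          ∃ σ : Fin (k * 3) → (Fin k × Fin 3) ⊕ Fin s, Function.Injective σ ∧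
            LIb K δ (fun i => Sum.elim (fun v : Fin k × Fin 3 => jt (z v.1) v.2) ω (σ i)) := by
  obtain ⟨A, B, w, hF, hPQ⟩ := fam hQ0 hnc
  have ev0 : ∀ P : Polynomial ℚ, pv P 0 = ((P.eval 0 : ℚ) : ℂ) := by
    intro P
    have := pv_rat P 0
    simpa using this
  have hQ0' : ((Q.eval 0 : ℚ) : ℂ) ≠ 0 := by exact_mod_cast hQ0
  obtain ⟨R, hR⟩ := main hF z0 (by
    rw [ev0, ev0, hz0]
    have h1 : ((P.eval 0 : ℚ) : ℂ) * (((De A B).eval 0 : ℚ) : ℂ) = 1728 * (4 * ((A.eval 0 : ℚ) : ℂ) ^ 3) * ((Q.eval 0 : ℚ) : ℂ) := by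
      exact_mod_cast congrArg (fun q : ℚ => (q : ℂ)) hPQ
    push_cast
    field_simp
    linear_combination h1) s ω hω
  refine ⟨R, fun k δ D => ?_⟩
  obtain ⟨E, hE⟩ := hR k δ D
  obtain ⟨c, N₀, hc, hw⟩ := Pool.Agent.Y124.TD.window E R
  have hQne : Q ≠ 0 := by
    rintro rfl
    simp at hQ0
  obtain ⟨v, hv, hv'⟩ := no_roots_q hQne
  obtain ⟨N₁, hN₁⟩ := exists_nat_gt (1 / v)
  refine ⟨c, max N₀ (N₁ + 1), hc, fun N hN n hn z hz K _ hK => ?_⟩
  set H := ⌊(N : ℝ) ^ c⌋₊ with hH
  have hN0 : N₀ ≤ N := (le_max_left _ _).trans hN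
  have hN1 : N₁ + 1 ≤ N := (le_max_right _ _).trans hN
  have hle : ∀ l, n l ≤ N + H := by
    intro l
    have h1 := (hn.1 l).2
    have h2 : ((n l - N : ℕ) : ℝ) ≤ (N : ℝ) ^ c := by
      rw [Nat.cast_sub (hn.1 l).1]
      linarith
    have h3 := Nat.le_floor h2
    have := (hn.1 l).1
    omega
  have hTg : ∀ l, N + H + R - (N + H + R - n l) = n l := fun l => by
    have := hle l
    omega
  have hw' := hw N hN0
  refine hE (H + R) (N + H + R) (by
      have h1 : H + R + 2 = H + R + 2 := rfl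
      exact hw'.trans (by omega)) (fun l => N + H + R - n l) ⟨fun l => ?_, fun l l' hll => ?_⟩ (fun l => ?_) z (fun l => ?_) K hK
  · have := hle l
    show R ≤ N + H + R - n l
    omega
  · have h1 := hle l
    have h2 := hle l'
    show N + H + R - n l + R ≤ N + H + R - n l' ∨ N + H + R - n l' + R ≤ N + H + R - n l
    rcases hn.2 l l' hll with h | h
    · right
      omega
    · left
      omega
  · have := (hn.1 l).1
    show N + H + R - n l ≤ H + R
    omega
  · have hnl : 0 < n l := by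
      have := (hn.1 l).1
      omega
    have hr : (1 / ((N + H + R - (N + H + R - n l) : ℕ) : ℝ)) = ((1 / (n l : ℚ) : ℚ) : ℝ) := by
      rw [hTg]
      push_cast
      rfl
    rw [hr, pv_rat, pv_rat, hz l]
    have hQn : Q.eval (1 / (n l : ℚ)) ≠ 0 := by
      have h3 := hv' (1 / (n l : ℝ)) (by positivity) (by
        rw [div_lt_comm₀ (by exact_mod_cast hnl) hv]
        have h4 : ((N₁ + 1 : ℕ) : ℝ) ≤ n l := by exact_mod_cast hN1.trans (hn.1 l).1
        push_cast at h4
        linarith)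
      intro h5
      apply h3
      have h6 := pv_rat Q (1 / (n l : ℚ))
      rw [h5] at h6
      unfold pv at h6
      push_cast at h6 ⊢
      exact h6
    have h1 : P.eval (1 / (n l : ℚ)) * (De (fa P Q) (fb P Q)).eval (1 / (n l : ℚ)) =
        1728 * (4 * (fa P Q).eval (1 / (n l : ℚ)) ^ 3) * Q.eval (1 / (n l : ℚ)) := by
      have := congrArg (Polynomial.eval (1 / (n l : ℚ))) (inv_fab P Q)
      simpa using this
    have h2 : (De (fa P Q) (fb P Q)).eval (1 / (n l : ℚ)) * (P.eval (1 / (n l : ℚ)) / Q.eval (1 / (n l : ℚ))) =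
        1728 * (4 * (fa P Q).eval (1 / (n l : ℚ)) ^ 3) := by
      field_simp
      linear_combination h1
    unfold val
    exact_mod_cast congrArg (fun q : ℚ => (q : ℂ)) h2

/-- dropping the constants -/
lemma drop_s {K : IntermediateField ℚ ℂ} {δ r s : ℕ} {ι : Type} {x : ι → ℂ} {ω : Fin s → ℂ}
    (h : ∃ σ : Fin r → ι ⊕ Fin s, Function.Injective σ ∧ LIb K δ (fun i => Sum.elim x ω (σ i))) :
    ∃ σ : Fin (r - s) → ι, Function.Injective σ ∧ LIb K δ (fun i => x (σ i)) := by
  classical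
  obtain ⟨σ, hσ, hL⟩ := h
  set S : Finset (Fin r) := Finset.univ.filter fun i => (σ i).isLeft = true with hS'
  have hcard : r - s ≤ S.card := by
    have h1 : (Finset.univ.filter fun i => ¬ (σ i).isLeft = true).card ≤ s := by
      have h2 : ∀ i ∈ (Finset.univ.filter fun i => ¬ (σ i).isLeft = true), ∃ j, σ i = Sum.inr j := by
        intro i hi
        have h3 := (Finset.mem_filter.1 hi).2
        rcases hi' : σ i with a | b
        · rw [hi'] at h3
          simp at h3
        · exact ⟨b, rfl⟩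
      have h4 : ((Finset.univ.filter fun i => ¬ (σ i).isLeft = true).image σ) ⊆ (Finset.univ.image (Sum.inr : Fin s → ι ⊕ Fin s)) := by
        intro y hy
        obtain ⟨i, hi, rfl⟩ := Finset.mem_image.1 hy
        obtain ⟨j, hj⟩ := h2 i hi
        exact Finset.mem_image.2 ⟨j, Finset.mem_univ _, hj.symm⟩
      have h5 := Finset.card_le_card h4
      rw [Finset.card_image_of_injective _ hσ, Finset.card_image_of_injective _ Sum.inr_injective, Finset.card_univ, Fintype.card_fin] at h5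
      exact h5
    have h5 := Finset.card_filter_add_card_filter_not (s := (Finset.univ : Finset (Fin r))) (fun i => (σ i).isLeft = true)
    rw [Finset.card_univ, Fintype.card_fin] at h5
    have h6 : S.card = (Finset.univ.filter fun i => (σ i).isLeft = true).card := rfl
    omega
  set φ : Fin (r - s) → Fin r := fun i => S.orderEmbOfCardLe hcard i with hφ
  have hφi : Function.Injective φ := (S.orderEmbOfCardLe hcard).injective
  have hφS : ∀ i, φ i ∈ S := fun i => Finset.orderEmbOfCardLe_mem S hcard i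
  have hp : ∀ i, ∃ p : ι, σ (φ i) = Sum.inl p := by
    intro i
    have h3 := (Finset.mem_filter.1 (hφS i)).2
    rcases hi' : σ (φ i) with a | b
    · exact ⟨a, rfl⟩
    · rw [hi'] at h3
      simp at h3
  choose p hp using hp
  refine ⟨p, fun i j hij => hφi (hσ ?_), ?_⟩
  · rw [hp, hp, hij]
  · have h1 := hL.comp φ hφi
    have h2 : (fun i => x (p i)) = fun i => Sum.elim x ω (σ (φ i)) := by
      funext i
      rw [hp]
      rfl
    rw [h2]
    exact h1

/-- the compositum -/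
lemma sup_fields {D : ℕ} {r : ℕ} (K : Fin r → IntermediateField ℚ ℂ) (hf : ∀ i, FiniteDimensional ℚ (K i))
    (hK : ∀ i, finrank ℚ (K i) ≤ D) :
    ∃ K' : IntermediateField ℚ ℂ, ∃ _ : FiniteDimensional ℚ K', (∀ i, K i ≤ K') ∧ finrank ℚ K' ≤ D ^ r := by
  classical
  have key : ∀ s : Finset (Fin r), ∃ K' : IntermediateField ℚ ℂ, ∃ _ : FiniteDimensional ℚ K', (∀ i ∈ s, K i ≤ K') ∧
      finrank ℚ K' ≤ D ^ s.card := by
    intro s
    induction s using Finset.induction_on with
    | empty =>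
      refine ⟨⊥, inferInstance, fun l hl => absurd hl (Finset.notMem_empty _), ?_⟩
      rw [IntermediateField.finrank_bot, Finset.card_empty, pow_zero]
    | insert a s ha ih =>
      obtain ⟨K', hf', h1, h2⟩ := ih
      have := hf a
      refine ⟨K' ⊔ K a, IntermediateField.finiteDimensional_sup _ _, ?_, ?_⟩
      · intro l hl
        rcases Finset.mem_insert.1 hl with rfl | hl
        · exact le_sup_right
        · exact (h1 l hl).trans le_sup_left
      · rw [Finset.card_insert_of_notMem ha, pow_succ]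
        exact (IntermediateField.finrank_sup_le _ _).trans (Nat.mul_le_mul h2 (hK a))
  obtain ⟨K', hf', h1, h2⟩ := key Finset.univ
  rw [Finset.card_univ, Fintype.card_fin] at h2
  exact ⟨K', hf', fun i => h1 i (Finset.mem_univ _), h2⟩

/-- **At most `s` disjoint dependent tuples** -/
theorem exc {P Q : Polynomial ℚ} (hQ0 : Q.eval 0 ≠ 0) (hnc : ∀ c : ℚ, P ≠ Polynomial.C c * Q) (z0 : UpperHalfPlane)
    (hz0 : jj z0 = ((P.eval 0 / Q.eval 0 : ℚ) : ℂ)) (s : ℕ) (ω : Fin s → ℂ)
    (hω : ∀ i, IsAlgebraic (Algebra.adjoin ℚ (Set.range ω)) (cen z0 i)) :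
    ∃ G : ℕ, ∀ k δ D : ℕ, ∃ (c : ℝ) (N₀ : ℕ), 0 < c ∧ ∀ N : ℕ, N₀ ≤ N → ∀ n : Fin (s + 1) × Fin k → ℕ, InW N ((N : ℝ) ^ c) G n →
      ∃ i, ∀ z : Fin k → UpperHalfPlane, (∀ l, jj (z l) = val P Q (n (i, l))) →
        ∀ (K : IntermediateField ℚ ℂ) [FiniteDimensional ℚ K], finrank ℚ K ≤ D →
          ∃ σ : Fin (k * 3) → (Fin k × Fin 3), Function.Injective σ ∧ LIb K δ (fun i => jt (z (σ i).1) (σ i).2) := by
  classical
  obtain ⟨G, hG⟩ := win hQ0 hnc z0 hz0 s ω hω
  refine ⟨G, fun k δ D => ?_⟩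
  rcases Nat.eq_zero_or_pos k with hk | hk
  · subst hk
    refine ⟨1, 0, one_pos, fun N _ n _ => ⟨0, fun z _ K _ _ => ?_⟩⟩
    exact Pool.Agent.Y124.TG.libz K δ (fun v : Fin 0 × Fin 3 => jt (z v.1) v.2) (by omega)
  obtain ⟨c, N₀, hc, hw⟩ := hG ((s + 1) * k) δ (D ^ (s + 1))
  refine ⟨c, N₀, hc, fun N hN n hn => ?_⟩
  by_contra hcon
  push Not at hcon
  choose z hz K hf hK hbad using hcon
  obtain ⟨K', hf', hKK, hK'⟩ := sup_fields K hf hK
  set e : Fin ((s + 1) * k) ≃ Fin (s + 1) × Fin k := finProdFinEquiv.symm with he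
  obtain ⟨σ, hσ, hL⟩ := drop_s (hw N hN (fun l => n (e l)) ⟨fun l => hn.1 _, fun l l' hll => hn.2 _ _ fun h => hll (e.injective h)⟩
    (fun l => z (e l).1 (e l).2) (fun l => hz (e l).1 (e l).2) K' hK')
  -- some tuple is complete
  have hall : ∃ i : Fin (s + 1), ∀ v : Fin k × Fin 3, ∃ m, σ m = (e.symm (i, v.1), v.2) := by
    by_contra hno
    push Not at hno
    choose v hv using hno
    set T : Finset (Fin ((s + 1) * k) × Fin 3) := Finset.univ.image σ with hT
    set U : Finset (Fin ((s + 1) * k) × Fin 3) := Finset.univ.image fun i : Fin (s + 1) => (e.symm (i, (v i).1), (v i).2) with hU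
    have hUc : U.card = s + 1 := by
      rw [hU, Finset.card_image_of_injective, Finset.card_univ, Fintype.card_fin]
      intro i i' hii
      have h1 := congrArg Prod.fst hii
      have h2 := e.symm.injective h1
      exact congrArg Prod.fst h2
    have hTc : T.card = (s + 1) * k * 3 - s := by
      rw [hT, Finset.card_image_of_injective _ hσ, Finset.card_univ, Fintype.card_fin]
    have hdis : Disjoint T U := by
      rw [Finset.disjoint_left]
      intro y hy hy'
      obtain ⟨m, -, rfl⟩ := Finset.mem_image.1 hy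
      obtain ⟨i, -, hi⟩ := Finset.mem_image.1 hy'
      exact hv i m hi.symm
    have h3 := Finset.card_union_of_disjoint hdis
    have h4 : (T ∪ U).card ≤ (s + 1) * k * 3 := by
      have := Finset.card_le_univ (T ∪ U)
      rwa [Fintype.card_prod, Fintype.card_fin, Fintype.card_fin] at this
    have h5 : s ≤ (s + 1) * k * 3 := by nlinarith
    omega
  obtain ⟨i, hi⟩ := hall
  choose m hm using hi
  set e' : Fin (k * 3) ≃ Fin k × Fin 3 := finProdFinEquiv.symm with he'
  have hmi : Function.Injective fun j => m (e' j) := by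
    intro j j' hjj
    have h1 : σ (m (e' j)) = σ (m (e' j')) := congrArg σ hjj
    rw [hm, hm] at h1
    have h2 := congrArg Prod.fst h1
    have h3 := congrArg Prod.snd h1
    have h4 := e.symm.injective h2
    have h5 := congrArg Prod.snd h4
    exact e'.injective (Prod.ext h5 h3)
  have hL' := hL.comp (fun j => m (e' j)) hmi
  refine hbad i e' e'.injective (LIb.down (hKK i) ?_)
  convert hL' using 2 with j
  rw [hm]
  simp

end Pool.Agent.T44.MS
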